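import Pool.Agent.Y488.SIPack

namespace Pool.Agent.Y488.SI

open Filter Topology

variable {V : Type} {G : SimpleGraph V}

theorem eventually_rough (G : SimpleGraph V) (hs : SubScaleInvariant G) :
    ∃ k0 : ℕ, 1 ≤ k0 ∧ ∀ k, k0 ≤ k → ∀ N : Set V, IsNet G k N → ∃ C : ℝ, 0 < C ∧ C < 2 ∧
      ∃ f : V → N, IsRough G (netGraph G k N) C f := by
  classical
  by_contra hcon
  push Not at hcon
  -- bad nets
  have hbad : ∀ k : ℕ, ∃ N : Set V, IsNet G k N ∧
      ((∃ N' : Set V, IsNet G k N' ∧ ∀ C : ℝ, 0 < C → C < 2 →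
        ∀ f : V → N', ¬ IsRough G (netGraph G k N') C f) →
        ∀ C : ℝ, 0 < C → C < 2 → ∀ f : V → N, ¬ IsRough G (netGraph G k N) C f) := by
    intro k
    by_cases h : ∃ N' : Set V, IsNet G k N' ∧ ∀ C : ℝ, 0 < C → C < 2 →
        ∀ f : V → N', ¬ IsRough G (netGraph G k N') C f
    · obtain ⟨N', h1, h2⟩ := h
      exact ⟨N', h1, fun _ => h2⟩
    · obtain ⟨N, -, hN⟩ := exists_net_superset G k ∅ (fun u hu => absurd hu (Set.notMem_empty u))
      exact ⟨N, hN, fun h' => absurd h' h⟩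
  choose N hN1 hN2 using hbad
  have ht := hs N (fun k _ => hN1 k)
  have hlt : ∀ᶠ k in atTop, roughConst G (netGraph G k (N k)) < 2 := by
    apply ht.eventually_lt_const
    exact_mod_cast (by norm_num : (1 : ℝ) < 2)
  obtain ⟨k0, hk0⟩ := eventually_atTop.1 hlt
  obtain ⟨k, hk, N', hN', hN'2⟩ := hcon (max k0 1) (le_max_right _ _)
  have h1 := hk0 k (le_trans (le_max_left _ _) hk)
  have h2 := hN2 k ⟨N', hN', hN'2⟩
  unfold roughConst at h1
  rw [sInf_lt_iff] at h1
  obtain ⟨c, ⟨C, hC0, ⟨f, hf⟩, rfl⟩, hc⟩ := h1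
  have h3 : (C : EReal) < ((2 : ℝ) : EReal) := hc
  exact h2 C hC0 (EReal.coe_lt_coe_iff.1 h3) f hf

theorem big_ball (hG : G.Connected) (hf : LocFinite G) (ht : VertexTransitive G) (v : V)
    (k : ℕ) (hk : 1 ≤ k)
    (hrough : ∀ N : Set V, IsNet G k N → ∃ C : ℝ, 0 < C ∧ C < 2 ∧
      ∃ f : V → N, IsRough G (netGraph G k N) C f) :
    (nball G v (16 * k)).ncard ≤
      (17 * (nball G v 38).ncard) * (nball G v (8 * k)).ncard := by
  have hA : ∀ j : ℕ, ∃ A : Set V, A ⊆ {x | G.dist v x = j * k} ∧ Separated G (7 * k) A ∧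
      ∀ y ∈ {x | G.dist v x = j * k}, ∃ q ∈ A, G.dist q y < 7 * k := by
    intro j
    obtain ⟨Q, -, h1, h2, h3⟩ := exists_rel G (7 * k) (by omega) {x | G.dist v x = j * k} ∅
      (Set.empty_subset _) (fun u hu => absurd hu (Set.notMem_empty u))
    exact ⟨Q, h1, h2, h3⟩
  choose A hA1 hA2 hA3 using hA
  have hfin : ∀ j, (A j).Finite := by
    intro j
    exact (nball_finite hG hf v (j * k)).subset (fun x hx => le_of_eq (hA1 j hx))
  have hcard : ∀ j, j ≤ 16 → (A j).ncard ≤ (nball G v 38).ncard := by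
    intro j hj
    rcases Nat.eq_zero_or_pos j with rfl | hj0
    · have h1 : (A 0).ncard ≤ 1 := by
        rw [Set.ncard_le_one_iff (hfin 0)]
        intro a b ha hb
        have h1 : G.dist v a = 0 := by simpa using hA1 0 ha
        have h2 : G.dist v b = 0 := by simpa using hA1 0 hb
        rw [hG.dist_eq_zero_iff] at h1 h2
        rw [← h1, ← h2]
      exact le_trans h1 (nball_pos hG hf v 38)
    · refine le_trans (pack_bound hG hf ht v k j hk hj0 hrough (A j) (hA1 j) (hA2 j)) ?_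
      exact Set.ncard_le_ncard (nball_mono v (by omega)) (nball_finite hG hf v 38)
  set U : Set V := ⋃ j ∈ Finset.range 17, A j with hU
  have hUfin : U.Finite := Set.Finite.biUnion (Finset.finite_toSet _) (fun j _ => hfin j)
  have hUcard : U.ncard ≤ 17 * (nball G v 38).ncard := by
    calc U.ncard ≤ ∑ j ∈ Finset.range 17, (A j).ncard := Finset.set_ncard_biUnion_le _ _
      _ ≤ ∑ j ∈ Finset.range 17, (nball G v 38).ncard :=
          Finset.sum_le_sum (fun j hj => hcard j (by rw [Finset.mem_range] at hj; omega))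
      _ = 17 * (nball G v 38).ncard := by simp
  refine le_trans (ncard_cover hG hf ht v _ U hUfin (8 * k) ?_)
    (Nat.mul_le_mul_right _ hUcard)
  intro x hx
  have hx' : G.dist v x ≤ 16 * k := hx
  set d := G.dist v x with hd
  have h1 : d / k ≤ 16 := Nat.div_le_of_le_mul (by rw [Nat.mul_comm]; exact hx')
  have h2 : d / k * k ≤ d := Nat.div_mul_le_self d k
  have h3 : d < d / k * k + k := by
    have := Nat.lt_div_mul_add (a := d) (b := k) (by omega)
    exact this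
  obtain ⟨u, hu1, hu2⟩ := exists_at hG v x (d / k * k) h2
  obtain ⟨q, hq, hqu⟩ := hA3 (d / k) u hu1
  refine ⟨q, ?_, ?_⟩
  · rw [hU]
    simp only [Set.mem_iUnion]
    exact ⟨d / k, by rw [Finset.mem_range]; omega, hq⟩
  · have h4 := hG.dist_triangle (u := q) (v := u) (w := x)
    rw [← hd] at hu2
    omega

theorem doubling (hG : G.Connected) (hf : LocFinite G) (ht : VertexTransitive G)
    (hs : SubScaleInvariant G) : VolumeDoubling G := by
  obtain ⟨k0, hk0, hr⟩ := eventually_rough G hs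
  have : Nonempty V := hG.nonempty
  obtain ⟨v0⟩ := this
  set b : ℕ → ℕ := fun n => (nball G v0 n).ncard with hb
  have hbm : ∀ m n, m ≤ n → b m ≤ b n := fun m n h =>
    Set.ncard_le_ncard (nball_mono v0 h) (nball_finite hG hf v0 n)
  have hbs : ∀ m n, b (m + n) ≤ b m * b n := fun m n => nball_submult hG hf ht v0 m n
  have hb1 : ∀ n, 1 ≤ b n := fun n => nball_pos hG hf v0 n
  have hbig : ∀ k, k0 ≤ k → b (16 * k) ≤ (17 * b 38) * b (8 * k) := fun k hk =>
    big_ball hG hf ht v0 k (by omega) (hr k hk)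
  set K : ℕ := (17 * b 38) * b 16 + b (16 * k0) with hK
  have hdoub : ∀ n, b (2 * n) ≤ K * b n := by
    intro n
    by_cases hn : n < 8 * k0
    · calc b (2 * n) ≤ b (16 * k0) := hbm _ _ (by omega)
        _ ≤ b (16 * k0) * b n := Nat.le_mul_of_pos_right _ (by have := hb1 n; omega)
        _ ≤ K * b n := Nat.mul_le_mul_right _ (by omega)
    · have hk : k0 ≤ n / 8 := by omega
      calc b (2 * n) ≤ b (16 * (n / 8) + 16) := hbm _ _ (by omega)
        _ ≤ b (16 * (n / 8)) * b 16 := hbs _ _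
        _ ≤ ((17 * b 38) * b (8 * (n / 8))) * b 16 := Nat.mul_le_mul_right _ (hbig _ hk)
        _ = ((17 * b 38) * b 16) * b (8 * (n / 8)) := by ring
        _ ≤ ((17 * b 38) * b 16) * b n := Nat.mul_le_mul_left _ (hbm _ _ (by omega))
        _ ≤ K * b n := Nat.mul_le_mul_right _ (by omega)
  refine ⟨K * b 1, fun v r hr0 => ?_⟩
  have hball : ∀ r : ℝ, 0 < r → ball G v r = nball G v ⌊r⌋₊ := by
    intro r hr
    ext u
    show (G.dist v u : ℝ) ≤ r ↔ G.dist v u ≤ ⌊r⌋₊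
    rw [Nat.le_floor_iff hr.le]
  rw [hball r hr0, hball (2 * r) (by linarith)]
  rw [nball_ncard_eq hG hf ht v v0, nball_ncard_eq hG hf ht v v0]
  have hfl : ⌊2 * r⌋₊ ≤ 2 * ⌊r⌋₊ + 1 := by
    have h1 := Nat.lt_floor_add_one r
    have h2 : 2 * r < ((2 * ⌊r⌋₊ + 2 : ℕ) : ℝ) := by push_cast; linarith
    have h3 := (Nat.floor_lt (by linarith)).2 h2
    omega
  calc b ⌊2 * r⌋₊ ≤ b (2 * ⌊r⌋₊ + 1) := hbm _ _ hfl
    _ ≤ b (2 * ⌊r⌋₊) * b 1 := hbs _ _
    _ ≤ (K * b ⌊r⌋₊) * b 1 := Nat.mul_le_mul_right _ (hdoub _)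
    _ = K * b 1 * b ⌊r⌋₊ := by ring

end Pool.Agent.Y488.SI
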