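import Pool.Agent.Y488.SIGen

namespace Pool.Agent.Y488.SI

open Filter Topology

theorem line_walk (n : ℕ) : ∀ a : ℤ, ∃ p : lineGraph.Walk a (a + n), p.length = n := by
  induction n with
  | zero =>
    intro a
    refine ⟨SimpleGraph.Walk.nil.copy rfl (by simp), by simp⟩
  | succ n ih =>
    intro a
    obtain ⟨p, hp⟩ := ih (a + 1)
    have hadj : lineGraph.Adj a (a + 1) := by
      show |a - (a + 1)| = 1
      simp
    refine ⟨(SimpleGraph.Walk.cons hadj p).copy rfl (by push_cast; ring), ?_⟩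
    simp [hp]

theorem line_walk' (a b : ℤ) : ∃ p : lineGraph.Walk a b, p.length = (a - b).natAbs := by
  rcases le_total a b with h | h
  · obtain ⟨p, hp⟩ := line_walk (b - a).toNat a
    refine ⟨p.copy rfl (by omega), ?_⟩
    rw [SimpleGraph.Walk.length_copy, hp]
    omega
  · obtain ⟨p, hp⟩ := line_walk (a - b).toNat b
    refine ⟨(p.copy rfl (by omega) : lineGraph.Walk b a).reverse, ?_⟩
    rw [SimpleGraph.Walk.length_reverse, SimpleGraph.Walk.length_copy, hp]
    omega

theorem line_conn : lineGraph.Connected := by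
  have : Nonempty ℤ := ⟨0⟩
  refine SimpleGraph.Connected.mk ?_
  intro a b
  obtain ⟨p, -⟩ := line_walk' a b
  exact ⟨p⟩

theorem line_dist (a b : ℤ) : lineGraph.dist a b = (a - b).natAbs := by
  apply le_antisymm
  · obtain ⟨p, hp⟩ := line_walk' a b
    rw [← hp]
    exact SimpleGraph.dist_le p
  · obtain ⟨p, hp⟩ := line_conn.exists_walk_length_eq_dist a b
    rw [← hp]
    clear hp
    induction p with
    | nil => simp
    | cons h p ih =>
      rename_i u v w
      have h1 : |u - v| = 1 := h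
      rw [SimpleGraph.Walk.length_cons]
      rcases abs_eq (by norm_num : (0 : ℤ) ≤ 1) |>.1 h1 with h2 | h2 <;> omega

theorem line_locFinite : LocFinite lineGraph := by
  intro v
  apply Set.Finite.subset (Set.finite_Icc (v - 1) (v + 1))
  intro u hu
  have h1 : |v - u| = 1 := hu
  rcases abs_eq (by norm_num : (0 : ℤ) ≤ 1) |>.1 h1 with h2 | h2 <;> constructor <;> omega

theorem line_transitive : VertexTransitive lineGraph := by
  intro u v
  refine ⟨{ toEquiv := Equiv.addRight (v - u), map_rel_iff' := ?_ }, ?_⟩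
  · intro a b
    show |(a + (v - u)) - (b + (v - u))| = 1 ↔ |a - b| = 1
    rw [add_sub_add_right_eq_sub]
  · show u + (v - u) = v
    ring

section
variable {k : ℕ} {N : Set ℤ}

theorem exists_F (hk : 1 ≤ k) (hN : IsNet lineGraph k N) (x : N) :
    ∃ y : N, (x : ℤ) < y ∧ (y : ℤ) ≤ x + 2 * k ∧ ∀ z : N, (z : ℤ) ≤ x + 2 * k → z ≤ y := by
  obtain ⟨q, hq, hqx⟩ := net_cover hk hN ((x : ℤ) + k)
  rw [line_dist] at hqx
  obtain ⟨y, ⟨hyN, hy⟩, hmax⟩ := Int.exists_greatest_of_bdd
    (P := fun y => y ∈ N ∧ y ≤ (x : ℤ) + 2 * k) ⟨(x : ℤ) + 2 * k, fun z hz => hz.2⟩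
    ⟨q, hq, by omega⟩
  have h1 := hmax q ⟨hq, by omega⟩
  exact ⟨⟨y, hyN⟩, by show (x : ℤ) < y; omega, hy, fun z hz => hmax z ⟨z.2, hz⟩⟩

theorem exists_B (hk : 1 ≤ k) (hN : IsNet lineGraph k N) (x : N) :
    ∃ y : N, (y : ℤ) < x ∧ (x : ℤ) - 2 * k ≤ y ∧ ∀ z : N, (x : ℤ) - 2 * k ≤ z → y ≤ z := by
  obtain ⟨q, hq, hqx⟩ := net_cover hk hN ((x : ℤ) - k)
  rw [line_dist] at hqx
  obtain ⟨y, ⟨hyN, hy⟩, hmin⟩ := Int.exists_least_of_bdd
    (P := fun y => y ∈ N ∧ (x : ℤ) - 2 * k ≤ y) ⟨(x : ℤ) - 2 * k, fun z hz => hz.2⟩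
    ⟨q, hq, by omega⟩
  have h1 := hmin q ⟨hq, by omega⟩
  exact ⟨⟨y, hyN⟩, by show y < (x : ℤ); omega, hy, fun z hz => hmin z ⟨z.2, hz⟩⟩

/-- There is an almost isometric, `1`-dense map from the line to the net graph. -/
theorem exists_line_map (hk : 1 ≤ k) (hN : IsNet lineGraph k N) :
    ∃ f : ℤ → N, (∀ i j : ℤ, (netGraph lineGraph k N).dist (f i) (f j) ≤ (i - j).natAbs) ∧
      (∀ i j : ℤ, (i - j).natAbs ≤ (netGraph lineGraph k N).dist (f i) (f j) + 1) ∧
      ∀ y : N, ∃ i : ℤ, (netGraph lineGraph k N).dist (f i) y ≤ 1 := by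
  have hcon := net_connected hk hN line_conn
  set H := netGraph lineGraph k N with hH
  choose F hF1 hF2 hF3 using exists_F hk hN
  choose B hB1 hB2 hB3 using exists_B hk hN
  obtain ⟨a0, ha0, -⟩ := net_cover hk hN 0
  set a : N := ⟨a0, ha0⟩ with ha
  have hadj : ∀ x y : N, x < y → (y : ℤ) ≤ x + 2 * k → H.Adj x y := by
    intro x y hxy h
    have hxy' : (x : ℤ) < y := hxy
    refine ⟨ne_of_lt hxy, ?_⟩
    rw [line_dist]
    omega
  have hadj2 : ∀ x y : N, H.Adj x y → (y : ℤ) ≤ x + 2 * k := by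
    intro x y h
    have h2 := h.2
    rw [line_dist] at h2
    omega
  have hFlt : ∀ x, x < F x := fun x => hF1 x
  have hBlt : ∀ x, B x < x := fun x => hB1 x
  have hFmono : Monotone F := by
    intro x y hxy
    have hxy' : (x : ℤ) ≤ y := hxy
    exact hF3 y (F x) (by have := hF2 x; omega)
  have hBmono : Monotone B := by
    intro x y hxy
    have hxy' : (x : ℤ) ≤ y := hxy
    exact hB3 x (B y) (by have := hB2 y; omega)
  have hBF : ∀ x, B (F x) ≤ x := fun x => hB3 (F x) x (by have := hF2 x; omega)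
  have hFs : StrictMono (fun n : ℕ => F^[n] a) := by
    apply strictMono_nat_of_lt_succ
    intro n
    rw [Function.iterate_succ_apply']
    exact hFlt _
  have hBs : StrictAnti (fun n : ℕ => B^[n] a) := by
    apply strictAnti_nat_of_succ_lt
    intro n
    rw [Function.iterate_succ_apply']
    exact hBlt _
  set f : ℤ → N := fun i => if 0 ≤ i then F^[i.toNat] a else B^[(-i).toNat] a with hf
  have hfn : ∀ n : ℕ, f (n : ℤ) = F^[n] a := by
    intro n
    simp only [hf]
    rw [if_pos (by omega)]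
    simp
  have hfm : ∀ n : ℕ, f (-(n : ℤ)) = B^[n] a := by
    intro n
    simp only [hf]
    rcases Nat.eq_zero_or_pos n with rfl | hn
    · simp
    · rw [if_neg (by omega)]
      simp
  have hstep : ∀ i : ℤ, f i < f (i + 1) ∧ ((f (i + 1) : N) : ℤ) ≤ (f i : ℤ) + 2 * k := by
    intro i
    rcases Int.eq_nat_or_neg i with ⟨n, rfl | rfl⟩
    · rw [hfn, show ((n : ℤ) + 1) = ((n + 1 : ℕ) : ℤ) by push_cast; ring, hfn,
        Function.iterate_succ_apply']
      exact ⟨hFlt _, hF2 _⟩
    · rcases Nat.eq_zero_or_pos n with rfl | hn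
      · have h0 : f (-((0 : ℕ) : ℤ)) = a := by rw [hfm]; rfl
        have h1 : f (-((0 : ℕ) : ℤ) + 1) = F a := by
          have := hfn 1
          simpa using this
        rw [h0, h1]
        exact ⟨hFlt _, hF2 _⟩
      · obtain ⟨m, rfl⟩ : ∃ m, n = m + 1 := ⟨n - 1, by omega⟩
        rw [hfm, show (-((m + 1 : ℕ) : ℤ) + 1) = -((m : ℕ) : ℤ) by push_cast; ring, hfm,
          Function.iterate_succ_apply']
        refine ⟨hBlt _, ?_⟩
        have := hB2 (B^[m] a)
        omega
  have hfs : StrictMono f := strictMono_int_of_lt_succ (fun i => (hstep i).1)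
  -- iterates of F from the points f i
  have hBFn : ∀ (m : ℕ) (x : N), B^[m] (F^[m] x) ≤ x := by
    intro m
    induction m with
    | zero => intro x; exact le_refl _
    | succ m ih =>
      intro x
      rw [Function.iterate_succ_apply, Function.iterate_succ_apply']
      exact le_trans (hBmono.iterate m (hBF _)) (ih x)
  have hsmall : ∀ m j : ℕ, m < j → F^[m] (B^[j] a) < B^[j - m - 1] a := by
    intro m j hmj
    by_contra hle
    push Not at hle
    have h1 := hBmono.iterate m hle
    rw [← Function.iterate_add_apply] at h1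
    have h2 := hBFn m (B^[j] a)
    have h3 : B^[m + (j - m - 1)] a ≤ B^[j] a := le_trans h1 h2
    have h4 : B^[j] a < B^[m + (j - m - 1)] a := hBs (by omega)
    exact absurd h3 (not_le.2 h4)
  have hclaim : ∀ (i : ℤ) (m : ℕ), F^[m] (f i) ≤ f (i + m + 1) := by
    intro i m
    by_cases hi : 0 ≤ i
    · obtain ⟨n, rfl⟩ := Int.eq_ofNat_of_zero_le hi
      rw [hfn, ← Function.iterate_add_apply, ← hfn]
      exact hfs.monotone (by push_cast; omega)
    · obtain ⟨j, hj⟩ : ∃ j : ℕ, i = -(j : ℤ) := ⟨(-i).toNat, by omega⟩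
      subst hj
      rw [hfm]
      by_cases hmj : m < j
      · have h1 := hsmall m j hmj
        have h2 : (-(j : ℤ) + m + 1) = -(((j - m - 1 : ℕ)) : ℤ) := by omega
        rw [h2, hfm]
        exact h1.le
      · have hj1 : 1 ≤ j := by omega
        have h1 := (hsmall (j - 1) j (by omega)).le
        have h2 : j - (j - 1) - 1 = 0 := by omega
        rw [h2] at h1
        have h3 := hFmono.iterate (m - (j - 1)) h1
        rw [← Function.iterate_add_apply] at h3
        have h4 : m - (j - 1) + (j - 1) = m := by omega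
        rw [h4] at h3
        have h5 : (-(j : ℤ) + m + 1) = ((m - (j - 1) : ℕ) : ℤ) := by omega
        rw [h5, hfn]
        exact h3
  -- walks move at most by F
  have hwalk : ∀ {x y : N} (p : H.Walk x y), y ≤ F^[p.length] x := by
    intro x y p
    induction p with
    | nil => exact le_refl _
    | cons h p ih =>
      rename_i u v w
      rw [SimpleGraph.Walk.length_cons, Function.iterate_succ_apply]
      exact le_trans ih (hFmono.iterate _ (hF3 u v (hadj2 u v h)))
  have hup : ∀ (n : ℕ) (i : ℤ), H.dist (f i) (f (i + n)) ≤ n := by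
    intro n
    induction n with
    | zero => intro i; simp
    | succ n ih =>
      intro i
      have h1 := ih i
      have h2 := hcon.dist_triangle (u := f i) (v := f (i + n)) (w := f (i + n + 1))
      have h3 : H.dist (f (i + n)) (f (i + n + 1)) ≤ 1 := by
        have := SimpleGraph.dist_le
          (hadj _ _ (hstep (i + n)).1 (hstep (i + n)).2).toWalk
        simpa using this
      push_cast
      rw [← add_assoc]
      omega
  have hlow : ∀ (i j : ℤ), i ≤ j → j ≤ i + H.dist (f i) (f j) + 1 := by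
    intro i j hij
    obtain ⟨p, hp⟩ := hcon.exists_walk_length_eq_dist (f i) (f j)
    have h1 := hwalk p
    rw [hp] at h1
    have h2 := le_trans h1 (hclaim i _)
    exact hfs.le_iff_le.1 h2
  refine ⟨f, ?_, ?_, ?_⟩
  · intro i j
    rcases le_total i j with h | h
    · have := hup (j - i).toNat i
      rw [show i + ((j - i).toNat : ℤ) = j by omega] at this
      omega
    · have := hup (i - j).toNat j
      rw [show j + ((i - j).toNat : ℤ) = i by omega] at this
      rw [SimpleGraph.dist_comm]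
      omega
  · intro i j
    rcases le_total i j with h | h
    · have := hlow i j h
      omega
    · have := hlow j i h
      rw [SimpleGraph.dist_comm]
      omega
  · intro y
    have hgrow : ∀ (n : ℕ) (i : ℤ), (f i : ℤ) + n ≤ f (i + n) := by
      intro n
      induction n with
      | zero => intro i; simp
      | succ n ih =>
        intro i
        have h1 := ih i
        have h2 : (f (i + n) : ℤ) < f (i + n + 1) := (hstep (i + n)).1
        rw [show i + ((n + 1 : ℕ) : ℤ) = i + n + 1 by push_cast; ring]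
        push_cast
        omega
    obtain ⟨i, hi, hmax⟩ := Int.exists_greatest_of_bdd
      (P := fun i => (f i : ℤ) ≤ y) (by
        refine ⟨max 0 ((y : ℤ) - f 0), ?_⟩
        intro z hz
        by_contra hcon2
        push Not at hcon2
        have h1 : 0 ≤ z := by omega
        have h2 := hgrow z.toNat 0
        rw [show (0 : ℤ) + (z.toNat : ℤ) = z by omega] at h2
        omega) (by
        refine ⟨-(((f 0 : ℤ) - y).toNat : ℤ), ?_⟩
        have h2 := hgrow ((f 0 : ℤ) - y).toNat (-(((f 0 : ℤ) - y).toNat : ℤ))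
        rw [show (-(((f 0 : ℤ) - y).toNat : ℤ)) + (((f 0 : ℤ) - y).toNat : ℤ) = 0 by omega] at h2
        show (f (-(((f 0 : ℤ) - y).toNat : ℤ)) : ℤ) ≤ y
        omega)
    refine ⟨i, ?_⟩
    have h1 : ¬ ((f (i + 1) : ℤ) ≤ y) := fun h => by
      have := hmax (i + 1) h
      omega
    by_cases hy : f i = y
    · rw [hy, SimpleGraph.dist_self]; omega
    · have h2 : f i < y := lt_of_le_of_ne hi hy
      have h3 := (hstep i).2
      have h4 := SimpleGraph.dist_le (hadj (f i) y h2 (by omega)).toWalk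
      simpa using h4

end

theorem line_rough {k : ℕ} {N : Set ℤ} (hk : 1 ≤ k) (hN : IsNet lineGraph k N) (C : ℝ)
    (hC : 1 < C) : ∃ f : ℤ → N, IsRough lineGraph (netGraph lineGraph k N) C f := by
  obtain ⟨f, h1, h2, h3⟩ := exists_line_map hk hN
  refine ⟨f, ?_, ?_⟩
  · intro x y
    rw [line_dist]
    have h4 : ((netGraph lineGraph k N).dist (f x) (f y) : ℝ) ≤ ((x - y).natAbs : ℝ) := by
      exact_mod_cast h1 x y
    have h5 : ((x - y).natAbs : ℝ) ≤ ((netGraph lineGraph k N).dist (f x) (f y) : ℝ) + 1 := by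
      exact_mod_cast h2 x y
    have h6 : (0 : ℝ) ≤ ((netGraph lineGraph k N).dist (f x) (f y) : ℝ) := Nat.cast_nonneg _
    constructor
    · have h7 : C⁻¹ * ((netGraph lineGraph k N).dist (f x) (f y) : ℝ) ≤
          ((netGraph lineGraph k N).dist (f x) (f y) : ℝ) := by
        have h8 : C⁻¹ ≤ 1 := inv_le_one_of_one_le₀ hC.le
        nlinarith
      linarith
    · nlinarith
  · intro y
    obtain ⟨i, hi⟩ := h3 y
    refine ⟨i, ?_⟩
    have : ((netGraph lineGraph k N).dist (f i) y : ℝ) ≤ 1 := by exact_mod_cast hi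
    linarith

theorem line_not_rough {Y : Type} (H : SimpleGraph Y) (C : ℝ) (hC0 : 0 < C) (hC1 : C < 1)
    (f : ℤ → Y) : ¬ IsRough lineGraph H C f := by
  rintro ⟨h1, -⟩
  have hpos : 0 < 1 - C ^ 2 := by nlinarith
  obtain ⟨n, hn⟩ := exists_nat_gt ((C ^ 3 + C) / (1 - C ^ 2))
  have h2 := h1 0 (n : ℤ)
  rw [line_dist] at h2
  have h3 : ((0 - (n : ℤ)).natAbs : ℝ) = n := by
    have : (0 - (n : ℤ)).natAbs = n := by omega
    rw [this]
  rw [h3] at h2
  set D : ℝ := (H.dist (f 0) (f (n : ℤ)) : ℝ) with hD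
  obtain ⟨h4, h5⟩ := h2
  have h6 : D ≤ C * (n + C) := by
    have h7 : C⁻¹ * D ≤ n + C := by linarith
    rw [inv_mul_le_iff₀ hC0] at h7
    exact h7
  rw [div_lt_iff₀ hpos] at hn
  nlinarith

theorem line_roughConst {k : ℕ} {N : Set ℤ} (hk : 1 ≤ k) (hN : IsNet lineGraph k N) :
    roughConst lineGraph (netGraph lineGraph k N) = 1 := by
  apply le_antisymm
  · have key : ∀ c : ℝ, 1 < c → roughConst lineGraph (netGraph lineGraph k N) ≤ (c : EReal) := by
      intro c hc
      exact sInf_le ⟨c, by linarith, line_rough hk hN c hc, rfl⟩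
    have h1 : Tendsto (fun n : ℕ => (((1 : ℝ) + 1 / ((n : ℝ) + 1) : ℝ) : EReal)) atTop
        (𝓝 ((1 : ℝ) : EReal)) := by
      have h2 : Tendsto (fun n : ℕ => (1 : ℝ) + 1 / ((n : ℝ) + 1)) atTop (𝓝 ((1 : ℝ) + 0)) :=
        tendsto_const_nhds.add tendsto_one_div_add_atTop_nhds_zero_nat
      rw [add_zero] at h2
      exact (continuous_coe_real_ereal.tendsto 1).comp h2
    refine ge_of_tendsto' h1 (fun n => key _ ?_)
    have : (0 : ℝ) < 1 / ((n : ℝ) + 1) := by positivity
    linarith
  · apply le_sInf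
    rintro c ⟨C, hC0, ⟨f, hf⟩, rfl⟩
    by_contra hlt
    push Not at hlt
    have h1 : (C : EReal) < ((1 : ℝ) : EReal) := hlt
    exact line_not_rough _ C hC0 (EReal.coe_lt_coe_iff.1 h1) f hf

theorem line_sub : SubScaleInvariant lineGraph := by
  intro N hN
  refine tendsto_const_nhds.congr' ?_
  filter_upwards [eventually_ge_atTop 1] with k hk
  exact (line_roughConst hk (hN k hk)).symm

end Pool.Agent.Y488.SI
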