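import Mathlib

/-!
Definitions for the problem on Riemannian manifolds with a linear differential curvature condition.

A Riemannian metric on an open subset `U` of `ℝⁿ = (Fin n → ℝ)` is given by its matrix field
`g : (Fin n → ℝ) → Matrix (Fin n) (Fin n) ℝ`.  A tensor field of type `(1,k)` is written as
`T x v`, where `v : ℕ → (Fin n → ℝ)` is a sequence of vectors of which only
`v 0, …, v (k-1)` are used: `T x v` is the vector `T_x(v 0, …, v (k-1))`.
-/

namespace Pool.Agent.Y488.KS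

variable {n : ℕ}

/-- The Christoffel map of the Levi-Civita connection of `g`, by the Koszul formula for the
constant vector fields `X`, `Y`: `gam g x X Y = ∇_X Y` at the point `x`. -/
noncomputable def gam (g : (Fin n → ℝ) → Matrix (Fin n) (Fin n) ℝ) (x X Y : Fin n → ℝ) :
    Fin n → ℝ :=
  (g x)⁻¹.mulVec fun d =>
    (fderiv ℝ (fun y => (g y).mulVec Y d) x X + fderiv ℝ (fun y => (g y).mulVec X d) x Y
      - fderiv ℝ (fun y => dotProduct X ((g y).mulVec Y)) x (Pi.single d 1)) / 2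

/-- The curvature tensor `R(X,Y)Z = ∇_X ∇_Y Z - ∇_Y ∇_X Z - ∇_{[X,Y]} Z` with
`Z = v 0`, `X = v 1`, `Y = v 2`, extended to constant vector fields. -/
noncomputable def riem (g : (Fin n → ℝ) → Matrix (Fin n) (Fin n) ℝ) (x : Fin n → ℝ)
    (v : ℕ → Fin n → ℝ) : Fin n → ℝ :=
  fderiv ℝ (fun y => gam g y (v 2) (v 0)) x (v 1) - fderiv ℝ (fun y => gam g y (v 1) (v 0)) x (v 2)
    + gam g x (v 1) (gam g x (v 2) (v 0)) - gam g x (v 2) (gam g x (v 1) (v 0))

/-- The covariant derivative of a tensor field `T` of type `(1,k)`: the tensor field of type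
`(1,k+1)` whose value on `v 0, v 1, …, v k` is `(∇_{v 0} T)(v 1, …, v k)`. -/
noncomputable def covD (g : (Fin n → ℝ) → Matrix (Fin n) (Fin n) ℝ) (k : ℕ)
    (T : (Fin n → ℝ) → (ℕ → Fin n → ℝ) → Fin n → ℝ) (x : Fin n → ℝ) (v : ℕ → Fin n → ℝ) :
    Fin n → ℝ :=
  fderiv ℝ (fun y => T y fun i => v (i + 1)) x (v 0) + gam g x (v 0) (T x fun i => v (i + 1))
    - ∑ j ∈ Finset.range k, T x (Function.update (fun i => v (i + 1)) j (gam g x (v 0) (v (j + 1))))

/-- The `r`-th covariant derivative of the curvature tensor, a tensor field of type `(1,r+3)`: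
`nablaR g r x v = (∇^r R)(v 0, …, v (r-1); v r, v (r+1), v (r+2))`, where `v 0` is the direction
of the outermost derivative. -/
noncomputable def nablaR (g : (Fin n → ℝ) → Matrix (Fin n) (Fin n) ℝ) :
    ℕ → (Fin n → ℝ) → (ℕ → Fin n → ℝ) → Fin n → ℝ
  | 0 => riem g
  | r + 1 => covD g (r + 3) (nablaR g r)

/-- The linear condition of order `r` at the point `x` with coefficients `t m`, `m = 1, …, r`:
`∇^r R + t¹ ⊗ ∇^{r-1} R + … + t^r ⊗ R = 0` at `x`. -/
def KSAt (g : (Fin n → ℝ) → Matrix (Fin n) (Fin n) ℝ) (r : ℕ) (x : Fin n → ℝ)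
    (t : (m : ℕ) → (Fin n → ℝ) [×m]→L[ℝ] ℝ) : Prop :=
  ∀ v : ℕ → Fin n → ℝ,
    nablaR g r x v + ∑ m ∈ Finset.Icc 1 r,
      t m (fun i => v i) • nablaR g (r - m) x (fun i => v (i + m)) = 0

end Pool.Agent.Y488.KS
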