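import Pool.Agent.Y488.KSDefs

namespace Pool.Agent.Y488.KS

open scoped ContDiff

variable {N : ℕ}

/-- vector with given entries -/
def mk (a b : ℝ) (c : Fin (N + 2) → ℝ) : Fin (N + 4) → ℝ := Fin.cons a (Fin.cons b c)

@[simp] lemma mk_zero (a b : ℝ) (c : Fin (N + 2) → ℝ) : mk a b c 0 = a := rfl
@[simp] lemma mk_one (a b : ℝ) (c : Fin (N + 2) → ℝ) : mk a b c 1 = b := rfl
@[simp] lemma mk_two (a b : ℝ) (c : Fin (N + 2) → ℝ) : mk a b c 2 = c 0 := rfl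
@[simp] lemma mk_ss (a b : ℝ) (c : Fin (N + 2) → ℝ) (i : Fin (N + 2)) :
    mk a b c i.succ.succ = c i := rfl

lemma ext4 {X Y : Fin (N + 4) → ℝ} (h0 : X 0 = Y 0) (h1 : X 1 = Y 1)
    (h : ∀ i : Fin (N + 2), X i.succ.succ = Y i.succ.succ) : X = Y := by
  funext j
  refine Fin.cases h0 (fun j => ?_) j
  refine Fin.cases h1 (fun j => ?_) j
  exact h j

lemma ss_zero : (Fin.succ (Fin.succ (0 : Fin (N + 2)))) = (2 : Fin (N + 4)) := rfl

/-- block inner product -/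
def ip (X Y : Fin (N + 4) → ℝ) : ℝ := ∑ i : Fin (N + 2), X i.succ.succ * Y i.succ.succ

lemma ip_comm (X Y : Fin (N + 4) → ℝ) : ip X Y = ip Y X := by
  unfold ip; exact Finset.sum_congr rfl fun i _ => mul_comm _ _

/-- the weights -/
noncomputable def wt (x : Fin (N + 4) → ℝ) : Fin (N + 4) → ℝ :=
  mk ((x 0 ^ 3)⁻¹) (x 0 ^ 3) (fun _ => (x 2 ^ 2)⁻¹)

/-- the metric -/
noncomputable def gg (x : Fin (N + 4) → ℝ) : Matrix (Fin (N + 4)) (Fin (N + 4)) ℝ :=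
  Matrix.diagonal (wt x)

/-- the domain -/
def UU : Set (Fin (N + 4) → ℝ) := {x | 0 < x 0 ∧ 0 < x 2}

noncomputable def g1 (x X Y : Fin (N + 4) → ℝ) : ℝ :=
  (x 0 ^ 3)⁻¹ * (X 0 * Y 0) + x 0 ^ 3 * (X 1 * Y 1)
noncomputable def g2 (x X Y : Fin (N + 4) → ℝ) : ℝ := (x 2 ^ 2)⁻¹ * ip X Y

noncomputable def GG (x X Y : Fin (N + 4) → ℝ) : Fin (N + 4) → ℝ :=
  mk (-(3 / 2) * ((x 0)⁻¹ * (X 0 * Y 0)) - (3 / 2) * (x 0 ^ 5 * (X 1 * Y 1)))
    ((3 / 2) * ((x 0)⁻¹ * (X 0 * Y 1 + X 1 * Y 0)))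
    (fun i => -(x 2)⁻¹ * (X 2 * Y i.succ.succ + Y 2 * X i.succ.succ
      - if i = 0 then ip X Y else 0))

lemma isOpen_UU : IsOpen (UU (N := N)) := by
  apply IsOpen.inter
  · exact isOpen_lt continuous_const (continuous_apply 0)
  · exact isOpen_lt continuous_const (continuous_apply 2)

lemma wt_pos {x : Fin (N + 4) → ℝ} (hx : x ∈ UU) (i : Fin (N + 4)) : 0 < wt x i := by
  obtain ⟨h0, h2⟩ := hx
  refine Fin.cases ?_ (fun i => ?_) i
  · show 0 < (x 0 ^ 3)⁻¹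
    positivity
  refine Fin.cases ?_ (fun i => ?_) i
  · show 0 < x 0 ^ 3
    positivity
  · show 0 < (x 2 ^ 2)⁻¹
    positivity

lemma fd_coord (i : Fin (N + 4)) (f : ℝ → ℝ) (f' : ℝ) (x : Fin (N + 4) → ℝ)
    (h : HasDerivAt f f' (x i)) :
    HasFDerivAt (fun y : Fin (N + 4) → ℝ => f (y i))
      (f' • (ContinuousLinearMap.proj i : (Fin (N + 4) → ℝ) →L[ℝ] ℝ)) x :=
  h.comp_hasFDerivAt x (hasFDerivAt_apply i x)

lemma hd_inv3 {s : ℝ} (hs : 0 < s) : HasDerivAt (fun s : ℝ => (s ^ 3)⁻¹) (-3 * (s ^ 4)⁻¹) s := by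
  have h := (hasDerivAt_pow 3 s).inv (by positivity : s ^ 3 ≠ 0)
  refine h.congr_deriv ?_
  field_simp
  norm_num
  try ring

lemma hd_inv2 {s : ℝ} (hs : 0 < s) : HasDerivAt (fun s : ℝ => (s ^ 2)⁻¹) (-2 * (s ^ 3)⁻¹) s := by
  have h := (hasDerivAt_pow 2 s).inv (by positivity : s ^ 2 ≠ 0)
  refine h.congr_deriv ?_
  field_simp
  norm_num
  try ring

lemma hd_pow3 (s : ℝ) : HasDerivAt (fun s : ℝ => s ^ 3) (3 * s ^ 2) s := by
  simpa using hasDerivAt_pow 3 s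

lemma hd_pow5 (s : ℝ) : HasDerivAt (fun s : ℝ => s ^ 5) (5 * s ^ 4) s := by
  simpa using hasDerivAt_pow 5 s

lemma hd_inv {s : ℝ} (hs : 0 < s) : HasDerivAt (fun s : ℝ => (s)⁻¹) (-(s ^ 2)⁻¹) s :=
  hasDerivAt_inv hs.ne'

lemma fd_mk (a b : (Fin (N + 4) → ℝ) → ℝ) (c : (Fin (N + 4) → ℝ) → Fin (N + 2) → ℝ)
    (a' b' : (Fin (N + 4) → ℝ) →L[ℝ] ℝ) (c' : Fin (N + 2) → (Fin (N + 4) → ℝ) →L[ℝ] ℝ)
    (x : Fin (N + 4) → ℝ) (ha : HasFDerivAt a a' x) (hb : HasFDerivAt b b' x)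
    (hc : ∀ i, HasFDerivAt (fun y => c y i) (c' i) x) :
    HasFDerivAt (fun y => mk (a y) (b y) (c y))
      (ContinuousLinearMap.pi (Fin.cons a' (Fin.cons b' c') : Fin (N + 4) → _)) x := by
  rw [hasFDerivAt_pi]
  intro j
  refine Fin.cases ?_ (fun j => ?_) j
  · exact ha
  refine Fin.cases ?_ (fun j => ?_) j
  · exact hb
  · exact hc j

lemma fd_mk_apply (a b : (Fin (N + 4) → ℝ) → ℝ) (c : (Fin (N + 4) → ℝ) → Fin (N + 2) → ℝ)
    (a' b' : (Fin (N + 4) → ℝ) →L[ℝ] ℝ) (c' : Fin (N + 2) → (Fin (N + 4) → ℝ) →L[ℝ] ℝ)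
    (x W : Fin (N + 4) → ℝ) (ha : HasFDerivAt a a' x) (hb : HasFDerivAt b b' x)
    (hc : ∀ i, HasFDerivAt (fun y => c y i) (c' i) x) :
    fderiv ℝ (fun y => mk (a y) (b y) (c y)) x W = mk (a' W) (b' W) (fun i => c' i W) := by
  rw [(fd_mk a b c a' b' c' x ha hb hc).fderiv]
  refine ext4 rfl rfl (fun i => rfl)

/-- derivative of the diagonal weights -/
noncomputable def dwt (x W : Fin (N + 4) → ℝ) : Fin (N + 4) → ℝ :=
  mk (-3 * (x 0 ^ 4)⁻¹ * W 0) (3 * x 0 ^ 2 * W 0) (fun _ => -2 * (x 2 ^ 3)⁻¹ * W 2)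

lemma fd_wt (x : Fin (N + 4) → ℝ) (hx : x ∈ UU) (i : Fin (N + 4)) :
    ∃ L : (Fin (N + 4) → ℝ) →L[ℝ] ℝ, HasFDerivAt (fun y => wt y i) L x ∧ ∀ W, L W = dwt x W i := by
  obtain ⟨h0, h2⟩ := hx
  refine Fin.cases ?_ (fun i => ?_) i
  · exact ⟨_, fd_coord 0 _ _ x (hd_inv3 h0), fun W => by simp [dwt]⟩
  refine Fin.cases ?_ (fun i => ?_) i
  · exact ⟨_, fd_coord 0 _ _ x (hd_pow3 (x 0)), fun W => by simp [dwt]⟩
  · exact ⟨_, fd_coord 2 _ _ x (hd_inv2 h2), fun W => by simp [dwt]⟩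

lemma gg_mulVec (x Y : Fin (N + 4) → ℝ) (d : Fin (N + 4)) :
    (gg x).mulVec Y d = wt x d * Y d := by
  simp [gg, Matrix.mulVec_diagonal]

lemma fd_mulVec (x W Y : Fin (N + 4) → ℝ) (hx : x ∈ UU) (d : Fin (N + 4)) :
    fderiv ℝ (fun y => (gg y).mulVec Y d) x W = dwt x W d * Y d := by
  obtain ⟨L, hL, hL'⟩ := fd_wt x hx d
  simp only [gg_mulVec]
  rw [(hL.mul_const (Y d)).fderiv]
  simp [hL']
  ring

lemma gg_dot (x X Y : Fin (N + 4) → ℝ) :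
    dotProduct X ((gg x).mulVec Y) = ∑ i, wt x i * (X i * Y i) := by
  simp only [dotProduct, gg_mulVec]
  exact Finset.sum_congr rfl fun i _ => by ring

lemma fd_dot (x W X Y : Fin (N + 4) → ℝ) (hx : x ∈ UU) :
    fderiv ℝ (fun y => dotProduct X ((gg y).mulVec Y)) x W = ∑ i, dwt x W i * (X i * Y i) := by
  simp only [gg_dot]
  choose L hL hL' using fd_wt x hx
  rw [(HasFDerivAt.fun_sum (u := Finset.univ) (fun i _ => (hL i).mul_const (X i * Y i))).fderiv]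
  simp [hL']
  exact Finset.sum_congr rfl fun i _ => by ring

lemma sum_split (f : Fin (N + 4) → ℝ) :
    ∑ i, f i = f 0 + (f 1 + ∑ i : Fin (N + 2), f i.succ.succ) := by
  rw [Fin.sum_univ_succ, Fin.sum_univ_succ]
  rfl

lemma sum_dwt (x W X Y : Fin (N + 4) → ℝ) :
    ∑ i, dwt x W i * (X i * Y i) = -3 * (x 0 ^ 4)⁻¹ * W 0 * (X 0 * Y 0)
      + 3 * x 0 ^ 2 * W 0 * (X 1 * Y 1) + -2 * (x 2 ^ 3)⁻¹ * W 2 * ip X Y := by
  rw [sum_split, ip, Finset.mul_sum]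
  simp only [dwt, mk_zero, mk_one, mk_ss]
  ring

lemma two_ne_zero' : (2 : Fin (N + 4)) ≠ 0 :=
  Fin.succ_ne_zero (Fin.succ (0 : Fin (N + 2)))

lemma two_ne_one' : (2 : Fin (N + 4)) ≠ 1 := fun h =>
  Fin.succ_ne_zero (0 : Fin (N + 2)) (Fin.succ_injective _ h)

lemma ss_ne_two {i : Fin (N + 2)} (hi : i ≠ 0) : (2 : Fin (N + 4)) ≠ i.succ.succ := by
  intro h
  apply hi
  have : (Fin.succ (Fin.succ (0 : Fin (N + 2)))) = i.succ.succ := h
  exact (Fin.succ_injective _ (Fin.succ_injective _ this)).symm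

lemma gam_eq (x : Fin (N + 4) → ℝ) (hx : x ∈ UU) (X Y : Fin (N + 4) → ℝ) :
    gam gg x X Y = GG x X Y := by
  have hinv : (gg x)⁻¹ = Matrix.diagonal (fun i => (wt x i)⁻¹) := by
    apply Matrix.inv_eq_left_inv
    rw [gg, Matrix.diagonal_mul_diagonal]
    have : (fun i => (wt x i)⁻¹ * wt x i) = fun _ => (1 : ℝ) := by
      funext i
      exact inv_mul_cancel₀ (wt_pos hx i).ne'
    rw [this, Matrix.diagonal_one]
  obtain ⟨h0, h2⟩ := id hx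
  unfold gam
  rw [hinv]
  have key : ∀ d, (Matrix.diagonal (fun i => (wt x i)⁻¹)).mulVec (fun d =>
      (fderiv ℝ (fun y => (gg y).mulVec Y d) x X + fderiv ℝ (fun y => (gg y).mulVec X d) x Y
      - fderiv ℝ (fun y => dotProduct X ((gg y).mulVec Y)) x (Pi.single d 1)) / 2) d
      = (wt x d)⁻¹ * ((dwt x X d * Y d + dwt x Y d * X d
        - ∑ i, dwt x (Pi.single d 1) i * (X i * Y i)) / 2) := by
    intro d
    rw [Matrix.mulVec_diagonal, fd_mulVec x X Y hx, fd_mulVec x Y X hx, fd_dot x _ X Y hx]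
  refine ext4 ?_ ?_ ?_
  · rw [key, sum_dwt, Pi.single_eq_same, Pi.single_eq_of_ne two_ne_zero']
    simp only [dwt, wt, GG, mk_zero]
    field_simp
    ring
  · rw [key, sum_dwt, Pi.single_eq_of_ne (zero_ne_one), Pi.single_eq_of_ne two_ne_one']
    simp only [dwt, wt, GG, mk_one]
    field_simp
    ring
  · intro i
    rw [key, sum_dwt, Pi.single_eq_of_ne (Fin.succ_ne_zero _).symm]
    by_cases hi : i = 0
    · subst hi
      rw [show (Pi.single (Fin.succ (Fin.succ (0 : Fin (N + 2)))) (1 : ℝ) : Fin (N + 4) → ℝ) 2 = 1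
        from Pi.single_eq_same _ _]
      simp only [dwt, wt, GG, mk_ss, if_true]
      field_simp
      ring
    · rw [Pi.single_eq_of_ne (ss_ne_two hi)]
      simp only [dwt, wt, GG, mk_ss, if_neg hi]
      field_simp
      ring

/-- projections -/
def p1 (X : Fin (N + 4) → ℝ) : Fin (N + 4) → ℝ := mk (X 0) (X 1) (fun _ => 0)
def p2 (X : Fin (N + 4) → ℝ) : Fin (N + 4) → ℝ := mk 0 0 (fun i => X i.succ.succ)

/-- derivative of `GG` -/
noncomputable def dGG (x W X Y : Fin (N + 4) → ℝ) : Fin (N + 4) → ℝ :=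
  mk (W 0 * ((3 / 2) * ((x 0 ^ 2)⁻¹ * (X 0 * Y 0)) - (15 / 2) * (x 0 ^ 4 * (X 1 * Y 1))))
    (W 0 * (-(3 / 2) * ((x 0 ^ 2)⁻¹ * (X 0 * Y 1 + X 1 * Y 0))))
    (fun i => W 2 * ((x 2 ^ 2)⁻¹ * (X 2 * Y i.succ.succ + Y 2 * X i.succ.succ
      - if i = 0 then ip X Y else 0)))

lemma fd_GG (x : Fin (N + 4) → ℝ) (hx : x ∈ UU) (W X Y : Fin (N + 4) → ℝ) :
    fderiv ℝ (fun y => GG y X Y) x W = dGG x W X Y := by
  obtain ⟨h0, h2⟩ := id hx
  have ha : HasDerivAt (fun s : ℝ => -(3 / 2) * (s⁻¹ * (X 0 * Y 0))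
      - (3 / 2) * (s ^ 5 * (X 1 * Y 1)))
      (-(3 / 2) * (-(x 0 ^ 2)⁻¹ * (X 0 * Y 0)) - (3 / 2) * (5 * x 0 ^ 4 * (X 1 * Y 1))) (x 0) :=
    (((hd_inv h0).mul_const (X 0 * Y 0)).const_mul (-(3 / 2))).sub
      (((hd_pow5 (x 0)).mul_const (X 1 * Y 1)).const_mul (3 / 2))
  have hb : HasDerivAt (fun s : ℝ => (3 / 2) * (s⁻¹ * (X 0 * Y 1 + X 1 * Y 0)))
      ((3 / 2) * (-(x 0 ^ 2)⁻¹ * (X 0 * Y 1 + X 1 * Y 0))) (x 0) :=
    ((hd_inv h0).mul_const (X 0 * Y 1 + X 1 * Y 0)).const_mul (3 / 2)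
  have hc : ∀ i : Fin (N + 2), HasDerivAt (fun s : ℝ => -s⁻¹ *
      (X 2 * Y i.succ.succ + Y 2 * X i.succ.succ - if i = 0 then ip X Y else 0))
      ((x 2 ^ 2)⁻¹ *
      (X 2 * Y i.succ.succ + Y 2 * X i.succ.succ - if i = 0 then ip X Y else 0)) (x 2) := by
    intro i
    have := (hd_inv h2).neg.mul_const
      (X 2 * Y i.succ.succ + Y 2 * X i.succ.succ - if i = 0 then ip X Y else 0)
    rwa [neg_neg] at this
  unfold GG
  rw [fd_mk_apply _ _ _ _ _ _ x W (fd_coord 0 _ _ x ha) (fd_coord 0 _ _ x hb)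
    (fun i => fd_coord 2 _ _ x (hc i))]
  unfold dGG
  refine ext4 ?_ ?_ ?_
  · simp; ring
  · simp; ring
  · intro i
    simp only [mk_ss]
    simp
    ring

lemma fd_g1 (x : Fin (N + 4) → ℝ) (hx : x ∈ UU) (X Y : Fin (N + 4) → ℝ) :
    ∃ L : (Fin (N + 4) → ℝ) →L[ℝ] ℝ, HasFDerivAt (fun y => g1 y X Y) L x ∧
      ∀ W, L W = g1 x (GG x W X) Y + g1 x X (GG x W Y) := by
  obtain ⟨h0, h2⟩ := id hx
  refine ⟨_, ((fd_coord 0 _ _ x (hd_inv3 h0)).mul_const (X 0 * Y 0)).add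
    ((fd_coord 0 _ _ x (hd_pow3 (x 0))).mul_const (X 1 * Y 1)), fun W => ?_⟩
  simp [g1, GG]
  field_simp
  ring

lemma ip_GG (x W X Y : Fin (N + 4) → ℝ) :
    ip (GG x W X) Y = -(x 2)⁻¹ * (W 2 * ip X Y + X 2 * ip W Y - Y 2 * ip W X) := by
  have h : ∀ i : Fin (N + 2), GG x W X i.succ.succ * Y i.succ.succ =
      -(x 2)⁻¹ * (W 2 * (X i.succ.succ * Y i.succ.succ)) +
      (-(x 2)⁻¹ * (X 2 * (W i.succ.succ * Y i.succ.succ)) +
      (if i = 0 then (x 2)⁻¹ * (Y 2 * ip W X) else 0)) := by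
    intro i
    by_cases hi : i = 0
    · subst hi
      simp only [GG, mk_ss, if_true]
      simp only [ss_zero]
      ring
    · simp only [GG, mk_ss, if_neg hi]
      ring
  unfold ip at *
  rw [Finset.sum_congr rfl fun i _ => h i, Finset.sum_add_distrib, Finset.sum_add_distrib,
    Finset.sum_ite_eq' Finset.univ (0 : Fin (N + 2)), ← Finset.mul_sum, ← Finset.mul_sum,
    ← Finset.mul_sum, ← Finset.mul_sum]
  simp only [Finset.mem_univ, if_true]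
  ring

lemma fd_g2 (x : Fin (N + 4) → ℝ) (hx : x ∈ UU) (X Y : Fin (N + 4) → ℝ) :
    ∃ L : (Fin (N + 4) → ℝ) →L[ℝ] ℝ, HasFDerivAt (fun y => g2 y X Y) L x ∧
      ∀ W, L W = g2 x (GG x W X) Y + g2 x X (GG x W Y) := by
  obtain ⟨h0, h2⟩ := id hx
  refine ⟨_, (fd_coord 2 _ _ x (hd_inv2 h2)).mul_const (ip X Y), fun W => ?_⟩
  rw [g2, g2, ip_comm X (GG x W Y), ip_GG, ip_GG, ip_comm Y X]
  simp
  field_simp
  ring

lemma p1_GG (x W X : Fin (N + 4) → ℝ) : p1 (GG x W X) = GG x W (p1 X) := by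
  refine ext4 ?_ ?_ ?_
  · simp [p1, GG]
  · simp [p1, GG]
  · intro i
    simp only [p1, GG, mk_ss, mk_two, ip]
    simp

lemma p2_GG (x W X : Fin (N + 4) → ℝ) : p2 (GG x W X) = GG x W (p2 X) := by
  refine ext4 ?_ ?_ ?_
  · simp [p2, GG]
  · simp [p2, GG]
  · intro i
    simp only [p2, GG, mk_ss, mk_two, ip]
    rfl

lemma GG_comm (x X Y : Fin (N + 4) → ℝ) : GG x X Y = GG x Y X := by
  refine ext4 ?_ ?_ ?_
  · simp only [GG, mk_zero]; ring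
  · simp only [GG, mk_one]; ring
  · intro i
    simp only [GG, mk_ss, ip_comm X Y]; ring

lemma GG_add (x W X Y : Fin (N + 4) → ℝ) : GG x W (X + Y) = GG x W X + GG x W Y := by
  have h : ip W (X + Y) = ip W X + ip W Y := by
    simp only [ip, Pi.add_apply, mul_add, Finset.sum_add_distrib]
  refine ext4 ?_ ?_ ?_
  · simp only [GG, mk_zero, Pi.add_apply]; ring
  · simp only [GG, mk_one, Pi.add_apply]; ring
  · intro i
    simp only [GG, mk_ss, Pi.add_apply, h]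
    split_ifs <;> ring

lemma GG_smul (x W X : Fin (N + 4) → ℝ) (c : ℝ) : GG x W (c • X) = c • GG x W X := by
  have h : ip W (c • X) = c * ip W X := by
    simp only [ip, Pi.smul_apply, smul_eq_mul, Finset.mul_sum]
    exact Finset.sum_congr rfl fun i _ => by ring
  refine ext4 ?_ ?_ ?_
  · simp only [GG, mk_zero, Pi.smul_apply, smul_eq_mul]; ring
  · simp only [GG, mk_one, Pi.smul_apply, smul_eq_mul]; ring
  · intro i
    simp only [GG, mk_ss, Pi.smul_apply, smul_eq_mul, h]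
    split_ifs <;> ring

lemma GG_sub (x W X Y : Fin (N + 4) → ℝ) : GG x W (X - Y) = GG x W X - GG x W Y := by
  rw [sub_eq_add_neg, GG_add, ← neg_one_smul ℝ Y, GG_smul, neg_one_smul, sub_eq_add_neg]

/-- the two curvature blocks -/
noncomputable def S1 (x : Fin (N + 4) → ℝ) (v : ℕ → Fin (N + 4) → ℝ) : Fin (N + 4) → ℝ :=
  g1 x (v 2) (v 0) • p1 (v 1) - g1 x (v 1) (v 0) • p1 (v 2)

noncomputable def S2 (x : Fin (N + 4) → ℝ) (v : ℕ → Fin (N + 4) → ℝ) : Fin (N + 4) → ℝ :=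
  g2 x (v 2) (v 0) • p2 (v 1) - g2 x (v 1) (v 0) • p2 (v 2)

lemma GG_ss (x X Y : Fin (N + 4) → ℝ) (i : Fin (N + 2)) : GG x X Y i.succ.succ =
    -(x 2)⁻¹ * (X 2 * Y i.succ.succ + Y 2 * X i.succ.succ - if i = 0 then ip X Y else 0) := rfl

lemma GG_two (x X Y : Fin (N + 4) → ℝ) : GG x X Y 2 =
    -(x 2)⁻¹ * (X 2 * Y 2 + Y 2 * X 2 - ip X Y) := by
  have := GG_ss x X Y 0
  simpa [ss_zero] using this

lemma S1_ss (x : Fin (N + 4) → ℝ) (v : ℕ → Fin (N + 4) → ℝ) (i : Fin (N + 2)) :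
    S1 x v i.succ.succ = 0 := by
  simp [S1, p1]

lemma S2_ss (x : Fin (N + 4) → ℝ) (v : ℕ → Fin (N + 4) → ℝ) (i : Fin (N + 2)) :
    S2 x v i.succ.succ = (x 2 ^ 2)⁻¹ * ip (v 2) (v 0) * v 1 i.succ.succ
      - (x 2 ^ 2)⁻¹ * ip (v 1) (v 0) * v 2 i.succ.succ := by
  simp [S2, p2, g2]

lemma dGG_ss (x W X Y : Fin (N + 4) → ℝ) (i : Fin (N + 2)) : dGG x W X Y i.succ.succ =
    W 2 * ((x 2 ^ 2)⁻¹ * (X 2 * Y i.succ.succ + Y 2 * X i.succ.succ
      - if i = 0 then ip X Y else 0)) := rfl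

lemma riem_eq (x : Fin (N + 4) → ℝ) (hx : x ∈ UU) (v : ℕ → Fin (N + 4) → ℝ) :
    riem gg x v = (-3 * x 0) • S1 x v - S2 x v := by
  obtain ⟨h0, h2⟩ := id hx
  have e : ∀ X Y : Fin (N + 4) → ℝ, (fun y => gam gg y X Y) =ᶠ[nhds x] fun y => GG y X Y := by
    intro X Y
    filter_upwards [isOpen_UU.mem_nhds hx] with y hy using gam_eq y hy X Y
  unfold riem
  rw [(e _ _).fderiv_eq, (e _ _).fderiv_eq, fd_GG x hx, fd_GG x hx, gam_eq x hx, gam_eq x hx,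
    gam_eq x hx, gam_eq x hx]
  refine ext4 ?_ ?_ ?_
  · simp [dGG, GG, S1, S2, g1, g2, p1, p2]
    field_simp
    ring
  · simp [dGG, GG, S1, S2, g1, g2, p1, p2]
    field_simp
    ring
  · intro i
    have q1 := ip_GG x (v 2) (v 0) (v 1)
    have q2 := ip_GG x (v 1) (v 0) (v 2)
    rw [ip_comm] at q1 q2
    rw [ip_comm (v 0) (v 1), ip_comm (v 2) (v 1)] at q1
    rw [ip_comm (v 0) (v 2)] at q2
    simp only [Pi.add_apply, Pi.sub_apply, Pi.smul_apply, smul_eq_mul, GG_ss, S1_ss, S2_ss,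
      dGG_ss, GG_two, q1, q2]
    by_cases hi : i = 0
    · subst hi
      simp only [if_true, ss_zero]
      field_simp
      ring
    · simp only [if_neg hi]
      field_simp
      ring

noncomputable def T1 (x a b c : Fin (N + 4) → ℝ) : Fin (N + 4) → ℝ :=
  g1 x c a • p1 b - g1 x b a • p1 c

noncomputable def T2 (x a b c : Fin (N + 4) → ℝ) : Fin (N + 4) → ℝ :=
  g2 x c a • p2 b - g2 x b a • p2 c

lemma fd_T1 (x : Fin (N + 4) → ℝ) (hx : x ∈ UU) (a b c : Fin (N + 4) → ℝ) :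
    ∃ L : (Fin (N + 4) → ℝ) →L[ℝ] (Fin (N + 4) → ℝ), HasFDerivAt (fun y => T1 y a b c) L x ∧
      ∀ W, L W = T1 x (GG x W a) b c + T1 x a (GG x W b) c + T1 x a b (GG x W c)
        - GG x W (T1 x a b c) := by
  obtain ⟨L1, h1, e1⟩ := fd_g1 x hx c a
  obtain ⟨L2, h2, e2⟩ := fd_g1 x hx b a
  refine ⟨_, (h1.smul_const (p1 b)).sub (h2.smul_const (p1 c)), fun W => ?_⟩
  simp only [_root_.sub_apply, ContinuousLinearMap.smulRight_apply, e1, e2, T1,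
    GG_sub, GG_smul, p1_GG, add_smul]
  abel

lemma fd_T2 (x : Fin (N + 4) → ℝ) (hx : x ∈ UU) (a b c : Fin (N + 4) → ℝ) :
    ∃ L : (Fin (N + 4) → ℝ) →L[ℝ] (Fin (N + 4) → ℝ), HasFDerivAt (fun y => T2 y a b c) L x ∧
      ∀ W, L W = T2 x (GG x W a) b c + T2 x a (GG x W b) c + T2 x a b (GG x W c)
        - GG x W (T2 x a b c) := by
  obtain ⟨L1, h1, e1⟩ := fd_g2 x hx c a
  obtain ⟨L2, h2, e2⟩ := fd_g2 x hx b a
  refine ⟨_, (h1.smul_const (p2 b)).sub (h2.smul_const (p2 c)), fun W => ?_⟩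
  simp only [_root_.sub_apply, ContinuousLinearMap.smulRight_apply, e1, e2, T2,
    GG_sub, GG_smul, p2_GG, add_smul]
  abel

lemma nab0 (x : Fin (N + 4) → ℝ) (hx : x ∈ UU) (v : ℕ → Fin (N + 4) → ℝ) :
    nablaR gg 0 x v = (-3 * x 0) • T1 x (v 0) (v 1) (v 2) - T2 x (v 0) (v 1) (v 2) :=
  riem_eq x hx v

lemma covD_eq (k : ℕ) (T T' : (Fin (N + 4) → ℝ) → (ℕ → Fin (N + 4) → ℝ) → Fin (N + 4) → ℝ)
    (h : ∀ x ∈ UU, ∀ v, T x v = T' x v) (x : Fin (N + 4) → ℝ) (hx : x ∈ UU)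
    (v : ℕ → Fin (N + 4) → ℝ) (L : (Fin (N + 4) → ℝ) →L[ℝ] (Fin (N + 4) → ℝ))
    (hL : HasFDerivAt (fun y => T' y fun i => v (i + 1)) L x) :
    covD gg k T x v = L (v 0) + GG x (v 0) (T' x fun i => v (i + 1))
      - ∑ j ∈ Finset.range k, T' x (Function.update (fun i => v (i + 1)) j
        (GG x (v 0) (v (j + 1)))) := by
  have e : (fun y => T y fun i => v (i + 1)) =ᶠ[nhds x] fun y => T' y fun i => v (i + 1) := by
    filter_upwards [isOpen_UU.mem_nhds hx] with y hy using h y hy _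
  unfold covD
  rw [e.fderiv_eq, hL.fderiv, gam_eq x hx, h x hx]
  congr 1
  refine Finset.sum_congr rfl fun j _ => ?_
  rw [h x hx, gam_eq x hx]

lemma nab1 (x : Fin (N + 4) → ℝ) (hx : x ∈ UU) (v : ℕ → Fin (N + 4) → ℝ) :
    nablaR gg 1 x v = (-3 * v 0 0) • T1 x (v 1) (v 2) (v 3) := by
  obtain ⟨L1, h1, e1⟩ := fd_T1 x hx (v 1) (v 2) (v 3)
  obtain ⟨L2, h2, e2⟩ := fd_T2 x hx (v 1) (v 2) (v 3)
  have h0 : HasDerivAt (fun s : ℝ => -3 * s) (-3) (x 0) := by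
    simpa using (hasDerivAt_id (x 0)).const_mul (-3)
  have := covD_eq 3 (nablaR gg 0) _ nab0 x hx v _ (((fd_coord 0 _ _ x h0).smul h1).sub h2)
  refine this.trans ?_
  simp only [Finset.sum_range_succ, Finset.sum_range_zero, _root_.sub_apply,
    _root_.add_apply, _root_.smul_apply,
    ContinuousLinearMap.smulRight_apply, e1, e2, GG_sub, GG_smul, Function.update_apply]
  simp
  module

lemma nab2 (x : Fin (N + 4) → ℝ) (hx : x ∈ UU) (v : ℕ → Fin (N + 4) → ℝ) :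
    nablaR gg 2 x v = (-(9 / 2) * x 0 ^ 2 * g1 x (v 0) (v 1)) • T1 x (v 2) (v 3) (v 4) := by
  obtain ⟨L1, h1, e1⟩ := fd_T1 x hx (v 2) (v 3) (v 4)
  have := covD_eq 4 (nablaR gg 1) _ nab1 x hx v _ (h1.const_smul (-3 * v 1 0))
  refine this.trans ?_
  have hG : GG x (v 0) (v 1) 0 = -(3 / 2) * x 0 ^ 2 * g1 x (v 0) (v 1) * (-1) * (-1) := by
    obtain ⟨h0, h2⟩ := id hx
    simp only [GG, mk_zero, g1]
    field_simp
    ring
  simp only [Finset.sum_range_succ, Finset.sum_range_zero, 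
    _root_.smul_apply, e1, GG_smul, Function.update_apply]
  simp [hG]
  module

lemma nab3 (x : Fin (N + 4) → ℝ) (hx : x ∈ UU) (v : ℕ → Fin (N + 4) → ℝ) :
    nablaR gg 3 x v = (-9 * x 0 * v 0 0 * g1 x (v 1) (v 2)) • T1 x (v 3) (v 4) (v 5) := by
  obtain ⟨L1, h1, e1⟩ := fd_T1 x hx (v 3) (v 4) (v 5)
  obtain ⟨L2, h2, e2⟩ := fd_g1 x hx (v 1) (v 2)
  have h0 : HasDerivAt (fun s : ℝ => -(9 / 2) * s ^ 2) (-9 * x 0) (x 0) := by
    have := (hasDerivAt_pow 2 (x 0)).const_mul (-(9 / 2 : ℝ))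
    refine this.congr_deriv ?_
    norm_num
    ring
  have := covD_eq 5 (nablaR gg 2) _ nab2 x hx v _ (((fd_coord 0 _ _ x h0).mul h2).smul h1)
  refine this.trans ?_
  simp only [Finset.sum_range_succ, Finset.sum_range_zero, _root_.add_apply, _root_.smul_apply,
    ContinuousLinearMap.smulRight_apply, e1, e2, GG_smul, Function.update_apply]
  simp
  module

/-- basis vectors -/
def e0 : Fin (N + 4) → ℝ := mk 1 0 (fun _ => 0)
def e1 : Fin (N + 4) → ℝ := mk 0 1 (fun _ => 0)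
def eb (k : Fin (N + 2)) : Fin (N + 4) → ℝ := mk 0 0 (Pi.single k 1)

lemma eb_self (k : Fin (N + 2)) : (eb k : Fin (N + 4) → ℝ) k.succ.succ = 1 := by
  simp only [eb, mk_ss, Pi.single_eq_same]

lemma eb_ne {k i : Fin (N + 2)} (h : i ≠ k) : (eb k : Fin (N + 4) → ℝ) i.succ.succ = 0 := by
  simp only [eb, mk_ss, Pi.single_eq_of_ne h]

lemma ip_eb (k : Fin (N + 2)) (X : Fin (N + 4) → ℝ) : ip X (eb k) = X k.succ.succ := by
  rw [ip, Finset.sum_eq_single k]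
  · rw [eb_self, mul_one]
  · intro i _ hi
    rw [eb_ne hi, mul_zero]
  · intro h
    exact absurd (Finset.mem_univ k) h

lemma T1_011 (x : Fin (N + 4) → ℝ) : T1 x e1 e0 e1 = (x 0 ^ 3) • e0 := by
  refine ext4 ?_ ?_ ?_
  · simp [T1, g1, e0, e1, p1]
  · simp [T1, g1, e0, e1, p1]
  · intro i
    simp [T1, p1, e0]

lemma T2_011 (x : Fin (N + 4) → ℝ) : T2 x e1 e0 e1 = 0 := by
  refine ext4 ?_ ?_ ?_
  · simp [T2, p2]
  · simp [T2, p2]
  · intro i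
    simp [T2, p2, e0, e1]

lemma T1_b (x X Y Z : Fin (N + 4) → ℝ) (hY : p1 Y = 0) (hZ : p1 Z = 0) : T1 x X Y Z = 0 := by
  simp [T1, hY, hZ]

lemma p1_eb (k : Fin (N + 2)) : p1 (eb k) = (0 : Fin (N + 4) → ℝ) :=
  ext4 rfl rfl fun _ => rfl

lemma T2_b (x : Fin (N + 4) → ℝ) : T2 x (eb 1) (eb 0) (eb 1) 2 = (x 2 ^ 2)⁻¹ := by
  rw [← ss_zero]
  simp only [T2, g2, ip_eb, Pi.sub_apply, Pi.smul_apply, smul_eq_mul, p2, mk_ss]
  rw [eb_self, eb_self, eb_ne (k := 1) (i := 0) (by simp), eb_ne (k := 0) (i := 1) (by simp),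
    ss_zero]
  ring

lemma T1_b2 (x X Y Z : Fin (N + 4) → ℝ) : T1 x X Y Z 2 = 0 := by
  simp [T1, p1]

/-- the coefficients -/
noncomputable def tt : (m : ℕ) → (Fin (N + 4) → ℝ) → (Fin (N + 4) → ℝ) [×m]→L[ℝ] ℝ
  | 0, _ => 0
  | 1, x => (-2 * (x 0)⁻¹) • ContinuousMultilinearMap.ofSubsingleton ℝ (Fin (N + 4) → ℝ) ℝ (0 : Fin 1)
      (ContinuousLinearMap.proj 0 : (Fin (N + 4) → ℝ) →L[ℝ] ℝ)
  | _ + 2, _ => 0

lemma ks3 (x : Fin (N + 4) → ℝ) (hx : x ∈ UU) : KSAt gg 3 x (fun m => tt m x) := by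
  intro v
  rw [show Finset.Icc 1 3 = ({1, 2, 3} : Finset ℕ) from rfl]
  rw [Finset.sum_insert (by decide), Finset.sum_insert (by decide), Finset.sum_singleton]
  simp only [tt, _root_.zero_apply, zero_smul, add_zero]
  rw [nab3 x hx, show (3 : ℕ) - 1 = 2 from rfl, nab2 x hx]
  obtain ⟨h0, h2⟩ := id hx
  rw [smul_smul, ← add_smul]
  convert zero_smul ℝ _
  simp
  field_simp
  ring

lemma not1 (x : Fin (N + 4) → ℝ) (hx : x ∈ UU) (s : (m : ℕ) → (Fin (N + 4) → ℝ) [×m]→L[ℝ] ℝ) :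
    ¬ KSAt gg 1 x s := by
  obtain ⟨h0, h2⟩ := id hx
  intro h
  have hs : s 1 (fun _ => e0) = 0 := by
    have := h (fun k => match k with | 0 => e0 | 1 => eb 1 | 2 => eb 0 | _ => eb 1)
    rw [show Finset.Icc 1 1 = ({1} : Finset ℕ) from rfl, Finset.sum_singleton,
      nab1 x hx, show (1 : ℕ) - 1 = 0 from rfl, nab0 x hx] at this
    simp only [T1_b _ _ _ _ (p1_eb 0) (p1_eb 1), smul_zero, zero_add, zero_sub] at this
    have h' := congrFun this 2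
    simp only [Pi.smul_apply, Pi.neg_apply, T2_b, Pi.zero_apply, smul_eq_mul] at h'
    have h3 : (x 2 ^ 2)⁻¹ ≠ 0 := by positivity
    have h4 := (mul_eq_zero.1 h').resolve_right (neg_ne_zero.2 h3)
    convert h4 using 2
    funext i
    fin_cases i
    rfl
  have := h (fun k => match k with | 0 => e0 | 1 => e1 | 2 => e0 | _ => e1)
  rw [show Finset.Icc 1 1 = ({1} : Finset ℕ) from rfl, Finset.sum_singleton,
      nab1 x hx] at this
  have hs' : s 1 (fun i : Fin 1 => (fun k => match k with | 0 => e0 | 1 => e1 | 2 => e0 | _ => e1 : ℕ → Fin (N + 4) → ℝ) (i : ℕ)) = 0 := by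
    rw [← hs]
    congr 1
    funext i
    fin_cases i
    rfl
  rw [hs'] at this
  simp only [T1_011, zero_smul, add_zero] at this
  have h' := congrFun this 0
  simp [e0] at h'
  exact h0.ne' h'

lemma not2 (x : Fin (N + 4) → ℝ) (hx : x ∈ UU) (s : (m : ℕ) → (Fin (N + 4) → ℝ) [×m]→L[ℝ] ℝ) :
    ¬ KSAt gg 2 x s := by
  obtain ⟨h0, h2⟩ := id hx
  intro h
  have hs : s 2 (fun _ => e1) = 0 := by
    have := h (fun k => match k with | 0 => e1 | 1 => e1 | 2 => eb 1 | 3 => eb 0 | _ => eb 1)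
    rw [show Finset.Icc 1 2 = ({1, 2} : Finset ℕ) from rfl, Finset.sum_insert (by decide),
      Finset.sum_singleton, nab2 x hx, show (2 : ℕ) - 2 = 0 from rfl, nab0 x hx,
      show (2 : ℕ) - 1 = 1 from rfl, nab1 x hx] at this
    simp only [T1_b _ _ _ _ (p1_eb 0) (p1_eb 1), smul_zero, zero_add, zero_sub] at this
    have h' := congrFun this 2
    simp only [Pi.smul_apply, Pi.neg_apply, T2_b, Pi.zero_apply, smul_eq_mul] at h'
    have h3 : (x 2 ^ 2)⁻¹ ≠ 0 := by positivity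
    have h4 := (mul_eq_zero.1 h').resolve_right (neg_ne_zero.2 h3)
    convert h4 using 2
    funext i
    fin_cases i
    · rfl
    · rfl
  have := h (fun k => match k with | 0 => e1 | 1 => e1 | 2 => e1 | 3 => e0 | _ => e1)
  rw [show Finset.Icc 1 2 = ({1, 2} : Finset ℕ) from rfl, Finset.sum_insert (by decide),
      Finset.sum_singleton, nab2 x hx, show (2 : ℕ) - 1 = 1 from rfl, nab1 x hx] at this
  have hs' : s 2 (fun i : Fin 2 => (fun k => match k with | 0 => e1 | 1 => e1 | 2 => e1 | 3 => e0 | _ => e1 : ℕ → Fin (N + 4) → ℝ) (i : ℕ)) = 0 := by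
    rw [← hs]
    congr 1
    funext i
    fin_cases i
    · rfl
    · rfl
  rw [hs'] at this
  have h10 : (e1 : Fin (N + 4) → ℝ) 0 = 0 := rfl
  simp only [T1_011, zero_smul, add_zero, h10, mul_zero, smul_zero] at this
  have h' := congrFun this 0
  have h01 : (e0 : Fin (N + 4) → ℝ) 0 = 1 := rfl
  simp only [Pi.smul_apply, h01, smul_eq_mul, mul_one, Pi.zero_apply, g1, h10, mul_zero,
    zero_add, show (e1 : Fin (N + 4) → ℝ) 1 = 1 from rfl] at h'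
  have : x 0 ^ 2 * x 0 ^ 3 * x 0 ^ 3 = 0 := by linarith
  exact absurd this (by positivity)

lemma nonnull (x : Fin (N + 4) → ℝ) (hx : x ∈ UU) (X : Fin (N + 4) → ℝ) (hX : X ≠ 0) :
    ∃ v : ℕ → Fin (N + 4) → ℝ, v 1 = X ∧ nablaR gg 0 x v ≠ 0 := by
  obtain ⟨h0, h2⟩ := id hx
  by_cases hX0 : X 0 = 0
  · by_cases hX1 : X 1 = 0
    · have : ∃ i : Fin (N + 2), X i.succ.succ ≠ 0 := by
        by_contra hcon
        push Not at hcon
        exact hX (ext4 hX0 hX1 hcon)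
      obtain ⟨i, hi⟩ := this
      obtain ⟨k, hk⟩ : ∃ k : Fin (N + 2), k ≠ i := exists_ne i
      refine ⟨fun j => if j = 1 then X else eb k, by simp, ?_⟩
      rw [nab0 x hx]
      intro h
      have h' := congrFun h i.succ.succ
      simp only [T1, T2, g2, Pi.sub_apply, Pi.smul_apply, p1, p2, mk_ss, ip_eb, eb_self,
        eb_ne hk.symm, smul_eq_mul, if_true, Pi.zero_apply, show (0 : ℕ) ≠ 1 from by decide,
        show (2 : ℕ) ≠ 1 from by decide, if_false] at h'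
      have h3 : (x 2 ^ 2)⁻¹ ≠ 0 := by positivity
      have : (x 2 ^ 2)⁻¹ * X i.succ.succ = 0 := by linarith
      exact (mul_ne_zero h3 hi) this
    · refine ⟨fun j => if j = 1 then X else e0, by simp, ?_⟩
      rw [nab0 x hx]
      intro h
      have h' := congrFun h 1
      simp [T1, T2, g1, p1, p2, e0] at h'
      rcases h' with h' | h'
      · exact h0.ne' h'
      · exact hX1 h'
  · refine ⟨fun j => if j = 1 then X else e1, by simp, ?_⟩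
    rw [nab0 x hx]
    intro h
    have h' := congrFun h 0
    simp [T1, T2, g1, p1, p2, e1] at h'
    rcases h' with h' | h'
    · exact h0.ne' h'
    · exact hX0 h'

lemma cd_coord (i : Fin (N + 4)) : ContDiff ℝ ∞ (fun x : Fin (N + 4) → ℝ => x i) :=
  contDiff_apply ℝ ℝ i

lemma cd_wt (i : Fin (N + 4)) : ContDiffOn ℝ ∞ (fun x => wt x i) (UU (N := N)) := by
  refine Fin.cases ?_ (fun i => ?_) i
  · show ContDiffOn ℝ ∞ (fun x : Fin (N + 4) → ℝ => (x 0 ^ 3)⁻¹) UU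
    refine ContDiffOn.inv ((cd_coord 0).pow 3).contDiffOn ?_
    intro x hx
    obtain ⟨h0, h2⟩ := hx
    positivity
  refine Fin.cases ?_ (fun i => ?_) i
  · exact ((cd_coord 0).pow 3).contDiffOn
  · show ContDiffOn ℝ ∞ (fun x : Fin (N + 4) → ℝ => (x 2 ^ 2)⁻¹) UU
    refine ContDiffOn.inv ((cd_coord 2).pow 2).contDiffOn ?_
    intro x hx
    obtain ⟨h0, h2⟩ := hx
    positivity

lemma cd_tt (m : ℕ) : ContDiffOn ℝ ∞ (tt (N := N) m) UU := by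
  match m with
  | 0 =>
    show ContDiffOn ℝ ∞ (fun _ : Fin (N + 4) → ℝ => (0 : (Fin (N + 4) → ℝ) [×0]→L[ℝ] ℝ)) UU
    exact contDiffOn_const
  | 1 =>
    show ContDiffOn ℝ ∞ (fun x : Fin (N + 4) → ℝ => (-2 * (x 0)⁻¹) •
      ContinuousMultilinearMap.ofSubsingleton ℝ (Fin (N + 4) → ℝ) ℝ (0 : Fin 1)
      (ContinuousLinearMap.proj 0 : (Fin (N + 4) → ℝ) →L[ℝ] ℝ)) UU
    have h1 : ContDiffOn ℝ ∞ (fun x : Fin (N + 4) → ℝ => -2 * (x 0)⁻¹) UU := by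
      have h2 : ContDiffOn ℝ ∞ (fun x : Fin (N + 4) → ℝ => (x 0)⁻¹) UU :=
        ContDiffOn.inv (cd_coord 0).contDiffOn fun x hx => hx.1.ne'
      exact contDiffOn_const.mul h2
    exact h1.smul contDiffOn_const
  | k + 2 =>
    show ContDiffOn ℝ ∞ (fun _ : Fin (N + 4) → ℝ => (0 : (Fin (N + 4) → ℝ) [×(k + 2)]→L[ℝ] ℝ)) UU
    exact contDiffOn_const

lemma main4 (N : ℕ) :
    ∃ (U : Set (Fin (N + 4) → ℝ)) (g : (Fin (N + 4) → ℝ) → Matrix (Fin (N + 4)) (Fin (N + 4)) ℝ)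
      (t : (m : ℕ) → (Fin (N + 4) → ℝ) → (Fin (N + 4) → ℝ) [×m]→L[ℝ] ℝ),
      IsOpen U ∧ U.Nonempty ∧ Convex ℝ U ∧
      (∀ i j, ContDiffOn ℝ ∞ (fun x => g x i j) U) ∧ (∀ x ∈ U, (g x).PosDef) ∧
      (∀ m, ContDiffOn ℝ ∞ (t m) U) ∧
      (∀ x ∈ U, KSAt g 3 x (fun m => t m x)) ∧
      (∀ x ∈ U, ∃ v, nablaR g 1 x v ≠ 0) ∧
      (∀ x ∈ U, ∀ s : (m : ℕ) → (Fin (N + 4) → ℝ) [×m]→L[ℝ] ℝ,
        ¬ KSAt g 1 x s ∧ ¬ KSAt g 2 x s) ∧
      (∀ x ∈ U, ∀ X : Fin (N + 4) → ℝ, X ≠ 0 → ∃ v, v 1 = X ∧ riem g x v ≠ 0) := by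
  refine ⟨UU, gg, tt, isOpen_UU, ⟨fun _ => 1, ?_⟩, ?_, ?_, ?_, cd_tt, ks3, ?_, ?_, nonnull⟩
  · exact ⟨one_pos, one_pos⟩
  · have e : (UU : Set (Fin (N + 4) → ℝ)) =
        (LinearMap.proj 0 : (Fin (N + 4) → ℝ) →ₗ[ℝ] ℝ) ⁻¹' Set.Ioi 0 ∩
        (LinearMap.proj 2 : (Fin (N + 4) → ℝ) →ₗ[ℝ] ℝ) ⁻¹' Set.Ioi 0 := rfl
    rw [e]
    exact ((convex_Ioi 0).linear_preimage _).inter ((convex_Ioi 0).linear_preimage _)
  · intro i j
    by_cases hij : i = j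
    · subst hij
      have : (fun x => gg x i i) = fun x : Fin (N + 4) → ℝ => wt x i := by
        funext x
        simp [gg]
      rw [this]
      exact cd_wt i
    · have : (fun x => gg x i j) = fun _ : Fin (N + 4) → ℝ => (0 : ℝ) := by
        funext x
        simp [gg, hij]
      rw [this]
      exact contDiffOn_const
  · intro x hx
    exact Matrix.PosDef.diagonal fun i => wt_pos hx i
  · intro x hx
    by_contra hcon
    push Not at hcon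
    refine not1 x hx (fun _ => 0) ?_
    intro v
    rw [hcon v]
    simp
  · intro x hx s
    exact ⟨not1 x hx s, not2 x hx s⟩

/-- The theorem in every dimension `n ≥ 4`. -/
theorem main (n : ℕ) (hn : 4 ≤ n) :
    ∃ (U : Set (Fin n → ℝ)) (g : (Fin n → ℝ) → Matrix (Fin n) (Fin n) ℝ)
      (t : (m : ℕ) → (Fin n → ℝ) → (Fin n → ℝ) [×m]→L[ℝ] ℝ),
      IsOpen U ∧ U.Nonempty ∧ Convex ℝ U ∧
      (∀ i j, ContDiffOn ℝ ∞ (fun x => g x i j) U) ∧ (∀ x ∈ U, (g x).PosDef) ∧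
      (∀ m, ContDiffOn ℝ ∞ (t m) U) ∧
      (∀ x ∈ U, KSAt g 3 x (fun m => t m x)) ∧
      (∀ x ∈ U, ∃ v, nablaR g 1 x v ≠ 0) ∧
      (∀ x ∈ U, ∀ s : (m : ℕ) → (Fin n → ℝ) [×m]→L[ℝ] ℝ, ¬ KSAt g 1 x s ∧ ¬ KSAt g 2 x s) ∧
      (∀ x ∈ U, ∀ X : Fin n → ℝ, X ≠ 0 → ∃ v, v 1 = X ∧ riem g x v ≠ 0) := by
  obtain ⟨N, rfl⟩ : ∃ N, n = N + 4 := ⟨n - 4, by omega⟩
  exact main4 N

end Pool.Agent.Y488.KS
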