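import Mathlib

/-! Sub scale invariant graphs: definitions (nets, net graphs, rough isometries). -/

namespace Pool.Agent.Y488.SI

open Filter Topology

/-- Every two distinct vertices of `S` are at distance at least `k`. -/
def Separated {V : Type} (G : SimpleGraph V) (k : ℕ) (S : Set V) : Prop :=
  ∀ u ∈ S, ∀ v ∈ S, u ≠ v → k ≤ G.dist u v

/-- A `k`-net: a set of vertices which are pairwise at distance at least `k`, maximal under
inclusion. -/
def IsNet {V : Type} (G : SimpleGraph V) (k : ℕ) (S : Set V) : Prop :=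
  Maximal (Separated G k) S

/-- The `k`-net graph on `S`: distinct vertices of `S` are adjacent when their distance in `G`
is at most `2 * k`. -/
def netGraph {V : Type} (G : SimpleGraph V) (k : ℕ) (S : Set V) : SimpleGraph S where
  Adj u v := u ≠ v ∧ G.dist (u : V) (v : V) ≤ 2 * k
  symm := ⟨fun u v h => ⟨h.1.symm, by rw [SimpleGraph.dist_comm]; exact h.2⟩⟩
  loopless := ⟨fun u h => h.1 rfl⟩

/-- `f` is a `C`-rough isometry from the graph metric of `G` to the graph metric of `H`. -/
def IsRough {X Y : Type} (G : SimpleGraph X) (H : SimpleGraph Y) (C : ℝ) (f : X → Y) : Prop :=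
  (∀ x y : X, C⁻¹ * (H.dist (f x) (f y) : ℝ) - C ≤ (G.dist x y : ℝ) ∧
    (G.dist x y : ℝ) ≤ C * (H.dist (f x) (f y) : ℝ) + C) ∧
  ∀ y : Y, ∃ x : X, (H.dist (f x) y : ℝ) < C

/-- The infimum of the constants `C > 0` for which there is a `C`-rough isometry from `G` to `H`
(it is `∞` if there is none). -/
noncomputable def roughConst {X Y : Type} (G : SimpleGraph X) (H : SimpleGraph Y) : EReal :=
  sInf {c : EReal | ∃ C : ℝ, 0 < C ∧ (∃ f : X → Y, IsRough G H C f) ∧ c = (C : EReal)}

/-- `G` is sub scale invariant: the constants `C_k` of the `k`-net graphs tend to `1`, for every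
choice of the `k`-nets. -/
def SubScaleInvariant {V : Type} (G : SimpleGraph V) : Prop :=
  ∀ N : ℕ → Set V, (∀ k, 1 ≤ k → IsNet G k (N k)) →
    Tendsto (fun k => roughConst G (netGraph G k (N k))) atTop (𝓝 1)

/-- `G` is vertex-transitive. -/
def VertexTransitive {V : Type} (G : SimpleGraph V) : Prop :=
  ∀ u v : V, ∃ φ : G ≃g G, φ u = v

/-- `G` is locally finite. -/
def LocFinite {V : Type} (G : SimpleGraph V) : Prop := ∀ v : V, (G.neighborSet v).Finite

/-- The ball of radius `r` about `v`. -/
def ball {V : Type} (G : SimpleGraph V) (v : V) (r : ℝ) : Set V := {u | (G.dist v u : ℝ) ≤ r}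

/-- `G` has volume doubling. -/
def VolumeDoubling {V : Type} (G : SimpleGraph V) : Prop :=
  ∃ K : ℕ, ∀ v : V, ∀ r : ℝ, 0 < r → (ball G v (2 * r)).ncard ≤ K * (ball G v r).ncard

/-- The two-way infinite path on the integers. -/
def lineGraph : SimpleGraph ℤ where
  Adj a b := |a - b| = 1
  symm := ⟨fun a b h => by rw [abs_sub_comm]; exact h⟩
  loopless := ⟨fun a h => by simp at h⟩

end Pool.Agent.Y488.SI
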