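import Pool.Agent.Y488.SIDefs

namespace Pool.Agent.Y488.SI

variable {V : Type} {G : SimpleGraph V}

theorem sep_mono {k : ℕ} {S T : Set V} (h : Separated G k T) (hST : S ⊆ T) : Separated G k S :=
  fun u hu v hv huv => h u (hST hu) v (hST hv) huv

theorem exists_rel (G : SimpleGraph V) (k : ℕ) (hk : 1 ≤ k) (S A : Set V) (hAS : A ⊆ S)
    (hA : Separated G k A) :
    ∃ Q : Set V, A ⊆ Q ∧ Q ⊆ S ∧ Separated G k Q ∧ ∀ y ∈ S, ∃ q ∈ Q, G.dist q y < k := by
  obtain ⟨Q, hAQ, hQ⟩ := zorn_subset_nonempty {Q : Set V | Q ⊆ S ∧ Separated G k Q} (by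
    intro c hc hchain hne
    refine ⟨⋃₀ c, ⟨?_, ?_⟩, fun s hs => Set.subset_sUnion_of_mem hs⟩
    · exact Set.sUnion_subset fun s hs => (hc hs).1
    · rintro u ⟨s, hs, hus⟩ v ⟨t, ht, hvt⟩ huv
      rcases hchain.total hs ht with h | h
      · exact (hc ht).2 u (h hus) v hvt huv
      · exact (hc hs).2 u hus v (h hvt) huv) A ⟨hAS, hA⟩
  refine ⟨Q, hAQ, hQ.prop.1, hQ.prop.2, fun y hy => ?_⟩
  by_contra hcon
  push Not at hcon
  have hmem : (insert y Q : Set V) ∈ {Q : Set V | Q ⊆ S ∧ Separated G k Q} := by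
    refine ⟨Set.insert_subset hy hQ.prop.1, ?_⟩
    intro u hu v hv huv
    rcases hu with rfl | hu
    · rcases hv with rfl | hv
      · exact absurd rfl huv
      · rw [SimpleGraph.dist_comm]; exact hcon v hv
    · rcases hv with rfl | hv
      · exact hcon u hu
      · exact hQ.prop.2 u hu v hv huv
  have hle := hQ.le_of_ge hmem (Set.subset_insert y Q)
  have hyQ : y ∈ Q := hle (Set.mem_insert y Q)
  have := hcon y hyQ
  rw [SimpleGraph.dist_self] at this
  omega

theorem exists_net_superset (G : SimpleGraph V) (k : ℕ) (A : Set V)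
    (hA : Separated G k A) : ∃ N : Set V, A ⊆ N ∧ IsNet G k N := by
  obtain ⟨Q, hAQ, hQ⟩ := zorn_subset_nonempty {Q : Set V | Separated G k Q} (by
    intro c hc hchain hne
    refine ⟨⋃₀ c, ?_, fun s hs => Set.subset_sUnion_of_mem hs⟩
    rintro u ⟨s, hs, hus⟩ v ⟨t, ht, hvt⟩ huv
    rcases hchain.total hs ht with h | h
    · exact (hc ht) u (h hus) v hvt huv
    · exact (hc hs) u hus v (h hvt) huv) A hA
  exact ⟨Q, hAQ, hQ⟩

theorem net_cover {k : ℕ} (hk : 1 ≤ k) {N : Set V} (hN : IsNet G k N) (y : V) :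
    ∃ q ∈ N, G.dist q y < k := by
  by_contra hcon
  push Not at hcon
  have hmem : Separated G k (insert y N) := by
    intro u hu v hv huv
    rcases hu with rfl | hu
    · rcases hv with rfl | hv
      · exact absurd rfl huv
      · rw [SimpleGraph.dist_comm]; exact hcon v hv
    · rcases hv with rfl | hv
      · exact hcon u hu
      · exact hN.prop u hu v hv huv
  have hle := hN.le_of_ge hmem (Set.subset_insert y N)
  have hyQ : y ∈ N := hle (Set.mem_insert y N)
  have := hcon y hyQ
  rw [SimpleGraph.dist_self] at this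
  omega

theorem net_reach {k : ℕ} (hk : 1 ≤ k) {N : Set V} (hN : IsNet G k N) (hG : G.Connected)
    {a b : V} (p : G.Walk a b) :
    ∀ (x : V) (hx : x ∈ N), G.dist x a < k → ∀ (y : V) (hy : y ∈ N), G.dist y b < k →
      (netGraph G k N).Reachable ⟨x, hx⟩ ⟨y, hy⟩ := by
  induction p with
  | nil =>
    rename_i u
    intro x hx hxa y hy hyb
    by_cases hxy : x = y
    · subst hxy; exact SimpleGraph.Reachable.refl _
    · apply SimpleGraph.Adj.reachable
      refine ⟨fun h => hxy (congrArg Subtype.val h), ?_⟩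
      have := hG.dist_triangle (u := x) (v := u) (w := y)
      rw [SimpleGraph.dist_comm (u := y)] at hyb
      simp only
      omega
  | cons h p ih =>
    rename_i u v w
    intro x hx hxa y hy hyb
    obtain ⟨q, hq, hqv⟩ := net_cover hk hN v
    have h1 := ih q hq hqv y hy hyb
    refine SimpleGraph.Reachable.trans ?_ h1
    by_cases hxq : x = q
    · subst hxq; exact SimpleGraph.Reachable.refl _
    · apply SimpleGraph.Adj.reachable
      refine ⟨fun h => hxq (congrArg Subtype.val h), ?_⟩
      have h2 := hG.dist_triangle (u := x) (v := u) (w := v)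
      have h3 := hG.dist_triangle (u := x) (v := v) (w := q)
      have h4 : G.dist u v ≤ 1 := by
        have := SimpleGraph.dist_le h.toWalk
        simpa using this
      rw [SimpleGraph.dist_comm (u := q)] at hqv
      simp only
      omega

theorem net_connected {k : ℕ} (hk : 1 ≤ k) {N : Set V} (hN : IsNet G k N) (hG : G.Connected) :
    (netGraph G k N).Connected := by
  have : Nonempty V := hG.nonempty
  obtain ⟨v⟩ := this
  obtain ⟨q, hq, -⟩ := net_cover hk hN v
  have : Nonempty N := ⟨⟨q, hq⟩⟩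
  refine SimpleGraph.Connected.mk ?_
  rintro ⟨x, hx⟩ ⟨y, hy⟩
  obtain ⟨p⟩ := hG.preconnected x y
  exact net_reach hk hN hG p x hx (by rw [SimpleGraph.dist_self]; omega) y hy
    (by rw [SimpleGraph.dist_self]; omega)

/-- Distances in `G` are at most `2k` times the distances in the net graph. -/
theorem dist_le_net {k : ℕ} (hk : 1 ≤ k) {N : Set V} (hN : IsNet G k N) (hG : G.Connected)
    (x y : N) : G.dist (x : V) y ≤ 2 * k * (netGraph G k N).dist x y := by
  obtain ⟨p, hp⟩ := (net_connected hk hN hG).exists_walk_length_eq_dist x y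
  rw [← hp]
  clear hp
  induction p with
  | nil => simp
  | cons h p ih =>
    rename_i u v w
    have h1 := hG.dist_triangle (u := (u : V)) (v := (v : V)) (w := (w : V))
    have h2 := h.2
    rw [SimpleGraph.Walk.length_cons]
    nlinarith

theorem exists_at (hG : G.Connected) (v x : V) (m : ℕ) (hm : m ≤ G.dist v x) :
    ∃ u, G.dist v u = m ∧ G.dist u x = G.dist v x - m := by
  obtain ⟨p, hp⟩ := hG.exists_walk_length_eq_dist v x
  refine ⟨p.getVert m, ?_⟩
  have h1 := SimpleGraph.dist_le (p.take m)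
  have h2 := SimpleGraph.dist_le (p.drop m)
  rw [SimpleGraph.Walk.take_length] at h1
  rw [SimpleGraph.Walk.drop_length] at h2
  have h3 := hG.dist_triangle (u := v) (v := p.getVert m) (w := x)
  omega

end Pool.Agent.Y488.SI
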