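import Pool.Agent.Y488.SIGen

namespace Pool.Agent.Y488.SI

open Filter Topology

variable {V : Type} {G : SimpleGraph V}

theorem dist_sphere (hG : G.Connected) (v x y : V) (a b : ℕ) (hx : G.dist v x = a)
    (hy : G.dist v y = b) : a ≤ b + G.dist x y := by
  have h1 := hG.dist_triangle (u := v) (v := y) (w := x)
  rw [SimpleGraph.dist_comm (u := y)] at h1
  omega

/-- A net whose net graph reaches a given `7k`-separated subset of the sphere of radius `J k`
within `J` steps. -/
theorem level_net (hG : G.Connected) (v : V) (k J : ℕ) (hk : 1 ≤ k) (hJ : 1 ≤ J) (A : Set V)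
    (hAS : ∀ x ∈ A, G.dist v x = J * k) (hA : Separated G (7 * k) A) :
    ∃ (N : Set V), IsNet G k N ∧ ∃ (hv : v ∈ N) (hAN : A ⊆ N),
      ∀ (x : V) (hx : x ∈ A), (netGraph G k N).dist ⟨v, hv⟩ ⟨x, hAN hx⟩ ≤ J := by
  have hQ : ∀ j : ℕ, ∃ Q : Set V, Q ⊆ {x | G.dist v x = j * k} ∧ Separated G k Q ∧
      ∀ y ∈ {x | G.dist v x = j * k}, ∃ q ∈ Q, G.dist q y < k := by
    intro j
    obtain ⟨Q, -, h1, h2, h3⟩ := exists_rel G k hk {x | G.dist v x = j * k} ∅
      (Set.empty_subset _) (fun u hu => absurd hu (Set.notMem_empty u))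
    exact ⟨Q, h1, h2, h3⟩
  choose Q hQ1 hQ2 hQ3 using hQ
  set M : Set V := (⋃ j ∈ {j : ℕ | j < J}, Q j) ∪ A with hM
  have hMlev : ∀ x ∈ M, (∃ j, j < J ∧ x ∈ Q j) ∨ x ∈ A := by
    intro x hx
    rcases hx with hx | hx
    · left
      simp only [Set.mem_iUnion, Set.mem_ofPred_eq] at hx
      obtain ⟨j, hj, hxj⟩ := hx
      exact ⟨j, hj, hxj⟩
    · exact Or.inr hx
  have hne : ∀ (x y : V) (a b : ℕ), G.dist v x = a * k → G.dist v y = b * k → a ≠ b →
      k ≤ G.dist x y := by
    intro x y a b hx hy hab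
    have h1 := dist_sphere hG v x y _ _ hx hy
    have h2 := dist_sphere hG v y x _ _ hy hx
    rw [SimpleGraph.dist_comm (u := y)] at h2
    rcases lt_or_gt_of_ne hab with h | h
    · have : (a + 1) * k ≤ b * k := Nat.mul_le_mul_right k h
      rw [Nat.add_mul] at this
      omega
    · have : (b + 1) * k ≤ a * k := Nat.mul_le_mul_right k h
      rw [Nat.add_mul] at this
      omega
  have hMsep : Separated G k M := by
    intro x hx y hy hxy
    rcases hMlev x hx with ⟨i, hi, hxi⟩ | hxA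
    · rcases hMlev y hy with ⟨j, hj, hyj⟩ | hyA
      · by_cases hij : i = j
        · subst hij; exact hQ2 i x hxi y hyj hxy
        · exact hne x y i j (hQ1 i hxi) (hQ1 j hyj) hij
      · exact hne x y i J (hQ1 i hxi) (hAS y hyA) (by omega)
    · rcases hMlev y hy with ⟨j, hj, hyj⟩ | hyA
      · exact hne x y J j (hAS x hxA) (hQ1 j hyj) (by omega)
      · have := hA x hxA y hyA hxy
        omega
  obtain ⟨N, hMN, hN⟩ := exists_net_superset G k M hMsep
  have hQN : ∀ j, j < J → Q j ⊆ N := by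
    intro j hj x hx
    apply hMN
    left
    simp only [Set.mem_iUnion, Set.mem_ofPred_eq]
    exact ⟨j, hj, hx⟩
  have hAN : A ⊆ N := fun x hx => hMN (Or.inr hx)
  have hv : v ∈ N := by
    obtain ⟨q, hq, hqv⟩ := hQ3 0 v (by simp)
    have h1 : G.dist v q = 0 := by simpa using hQ1 0 hq
    rw [hG.dist_eq_zero_iff] at h1
    rw [h1]
    exact hQN 0 (by omega) hq
  have hcon := net_connected hk hN hG
  -- levels
  have hlev : ∀ j, j < J → ∀ (x : V) (hx : x ∈ N), x ∈ Q j →
      (netGraph G k N).dist ⟨v, hv⟩ ⟨x, hx⟩ ≤ j := by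
    intro j
    induction j with
    | zero =>
      intro hj x hx hxQ
      have h1 : G.dist v x = 0 := by simpa using hQ1 0 hxQ
      rw [hG.dist_eq_zero_iff] at h1
      subst h1
      rw [SimpleGraph.dist_self]
    | succ j ih =>
      intro hj x hx hxQ
      have h1 : G.dist v x = (j + 1) * k := hQ1 (j + 1) hxQ
      obtain ⟨u, hu1, hu2⟩ := exists_at hG v x (j * k) (by rw [h1]; exact Nat.mul_le_mul_right k (by omega))
      obtain ⟨q, hq, hqu⟩ := hQ3 j u hu1
      have hqN := hQN j (by omega) hq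
      have h2 := ih (by omega) q hqN hq
      have h3 : (netGraph G k N).dist ⟨q, hqN⟩ ⟨x, hx⟩ ≤ 1 := by
        have hadj : (netGraph G k N).Adj ⟨q, hqN⟩ ⟨x, hx⟩ := by
          refine ⟨?_, ?_⟩
          · intro h
            have h' : q = x := congrArg Subtype.val h
            have h4 : G.dist v q = j * k := hQ1 j hq
            rw [h', h1, Nat.add_mul] at h4
            omega
          · have h4 := hG.dist_triangle (u := q) (v := u) (w := x)
            rw [hu2, h1, Nat.add_mul] at h4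
            simp only
            omega
        simpa using SimpleGraph.dist_le hadj.toWalk
      have h4 := hcon.dist_triangle (u := ⟨v, hv⟩) (v := ⟨q, hqN⟩) (w := ⟨x, hx⟩)
      omega
  refine ⟨N, hN, hv, hAN, ?_⟩
  intro x hxA
  have h1 : G.dist v x = J * k := hAS x hxA
  obtain ⟨J', rfl⟩ : ∃ J', J = J' + 1 := ⟨J - 1, by omega⟩
  obtain ⟨u, hu1, hu2⟩ := exists_at hG v x (J' * k) (by rw [h1]; exact Nat.mul_le_mul_right k (by omega))
  obtain ⟨q, hq, hqu⟩ := hQ3 J' u hu1
  have hqN := hQN J' (by omega) hq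
  have h2 := hlev J' (by omega) q hqN hq
  have h3 : (netGraph G k N).dist ⟨q, hqN⟩ ⟨x, hAN hxA⟩ ≤ 1 := by
    have hadj : (netGraph G k N).Adj ⟨q, hqN⟩ ⟨x, hAN hxA⟩ := by
      refine ⟨?_, ?_⟩
      · intro h
        have h' : q = x := congrArg Subtype.val h
        have h4 : G.dist v q = J' * k := hQ1 J' hq
        rw [h', h1, Nat.add_mul] at h4
        omega
      · have h4 := hG.dist_triangle (u := q) (v := u) (w := x)
        rw [hu2, h1, Nat.add_mul] at h4
        simp only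
        omega
    simpa using SimpleGraph.dist_le hadj.toWalk
  have h4 := hcon.dist_triangle (u := ⟨v, hv⟩) (v := ⟨q, hqN⟩) (w := ⟨x, hAN hxA⟩)
  omega

/-- Balls of integer radius. -/
def nball (G : SimpleGraph V) (v : V) (n : ℕ) : Set V := {u | G.dist v u ≤ n}

theorem nball_finite (hG : G.Connected) (hf : LocFinite G) (v : V) (n : ℕ) :
    (nball G v n).Finite := by
  induction n with
  | zero =>
    apply Set.Finite.subset (Set.finite_singleton v)
    intro u hu
    have h1 : G.dist v u ≤ 0 := hu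
    have h2 : G.dist v u = 0 := by omega
    rw [hG.dist_eq_zero_iff] at h2
    simp [h2]
  | succ n ih =>
    apply Set.Finite.subset (ih.union (ih.biUnion (fun u _ => hf u)))
    intro x hx
    have hx' : G.dist v x ≤ n + 1 := hx
    by_cases h : G.dist v x ≤ n
    · exact Or.inl h
    · right
      obtain ⟨u, hu1, hu2⟩ := exists_at hG v x n (by omega)
      have hux : G.dist u x = 1 := by omega
      rw [SimpleGraph.dist_eq_one_iff_adj] at hux
      simp only [Set.mem_iUnion]
      exact ⟨u, le_of_eq hu1, hux⟩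

theorem iso_dist_le (hG : G.Connected) (φ : G ≃g G) (a b : V) :
    G.dist (φ a) (φ b) ≤ G.dist a b := by
  obtain ⟨p, hp⟩ := hG.exists_walk_length_eq_dist a b
  have := SimpleGraph.dist_le (p.map (φ : G →g G))
  rw [SimpleGraph.Walk.length_map, hp] at this
  exact this

theorem iso_dist (hG : G.Connected) (φ : G ≃g G) (a b : V) :
    G.dist (φ a) (φ b) = G.dist a b := by
  refine le_antisymm (iso_dist_le hG φ a b) ?_
  have := iso_dist_le hG φ.symm (φ a) (φ b)
  simpa using this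

theorem nball_ncard_eq (hG : G.Connected) (hf : LocFinite G) (ht : VertexTransitive G)
    (u v : V) (n : ℕ) : (nball G u n).ncard = (nball G v n).ncard := by
  have key : ∀ u v : V, (nball G u n).ncard ≤ (nball G v n).ncard := by
    intro u v
    obtain ⟨φ, hφ⟩ := ht u v
    refine Set.ncard_le_ncard_of_injOn φ ?_ (φ.injective.injOn) (nball_finite hG hf v n)
    intro x hx
    show G.dist v (φ x) ≤ n
    rw [← hφ, iso_dist hG]
    exact hx
  exact le_antisymm (key u v) (key v u)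

theorem nball_mono (v : V) {m n : ℕ} (h : m ≤ n) : nball G v m ⊆ nball G v n :=
  fun _ hx => le_trans (show G.dist v _ ≤ m from hx) h

theorem nball_pos (hG : G.Connected) (hf : LocFinite G) (v : V) (n : ℕ) :
    1 ≤ (nball G v n).ncard := by
  have := (Set.ncard_pos (nball_finite hG hf v n)).2 ⟨v, by simp [nball]⟩
  omega

/-- Counting a union of balls. -/
theorem ncard_cover (hG : G.Connected) (hf : LocFinite G) (ht : VertexTransitive G) (v : V)
    (S A : Set V) (hA : A.Finite) (n : ℕ) (h : ∀ x ∈ S, ∃ a ∈ A, G.dist a x ≤ n) :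
    S.ncard ≤ A.ncard * (nball G v n).ncard := by
  have h1 : S ⊆ ⋃ a ∈ hA.toFinset, nball G a n := by
    intro x hx
    obtain ⟨a, ha, hax⟩ := h x hx
    simp only [Set.mem_iUnion]
    exact ⟨a, by simpa using ha, hax⟩
  have hfin : (⋃ a ∈ hA.toFinset, nball G a n).Finite :=
    Set.Finite.biUnion (Finset.finite_toSet _) (fun a _ => nball_finite hG hf a n)
  calc S.ncard ≤ (⋃ a ∈ hA.toFinset, nball G a n).ncard := Set.ncard_le_ncard h1 hfin
    _ ≤ ∑ a ∈ hA.toFinset, (nball G a n).ncard := Finset.set_ncard_biUnion_le _ _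
    _ = ∑ a ∈ hA.toFinset, (nball G v n).ncard :=
        Finset.sum_congr rfl (fun a _ => nball_ncard_eq hG hf ht a v n)
    _ = A.ncard * (nball G v n).ncard := by
        rw [Finset.sum_const, smul_eq_mul, Set.ncard_eq_toFinset_card A hA]

theorem nball_submult (hG : G.Connected) (hf : LocFinite G) (ht : VertexTransitive G) (v : V)
    (m n : ℕ) : (nball G v (m + n)).ncard ≤ (nball G v m).ncard * (nball G v n).ncard := by
  refine ncard_cover hG hf ht v _ _ (nball_finite hG hf v m) n ?_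
  intro x hx
  have hx' : G.dist v x ≤ m + n := hx
  by_cases h : G.dist v x ≤ m
  · exact ⟨x, h, by rw [SimpleGraph.dist_self]; omega⟩
  · obtain ⟨u, hu1, hu2⟩ := exists_at hG v x m (by omega)
    exact ⟨u, le_of_eq hu1, by omega⟩

/-- If every `k`-net graph is roughly isometric to `G` with a constant less than `2`, then
`7k`-separated subsets of spheres of radius `J k` are small. -/
theorem pack_bound (hG : G.Connected) (hf : LocFinite G) (ht : VertexTransitive G) (v : V)
    (k J : ℕ) (hk : 1 ≤ k) (hJ : 1 ≤ J)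
    (hrough : ∀ N : Set V, IsNet G k N → ∃ C : ℝ, 0 < C ∧ C < 2 ∧
      ∃ f : V → N, IsRough G (netGraph G k N) C f)
    (A : Set V) (hAS : ∀ x ∈ A, G.dist v x = J * k) (hA : Separated G (7 * k) A) :
    A.ncard ≤ (nball G v (2 * J + 6)).ncard := by
  obtain ⟨N, hN, hv, hAN, hlev⟩ := level_net hG v k J hk hJ A hAS hA
  obtain ⟨C, hC0, hC1, f, hf1, hf2⟩ := hrough N hN
  have hcon := net_connected hk hN hG
  have hnear : ∀ y : N, ∃ x : V, (netGraph G k N).dist (f x) y ≤ 1 := by
    intro y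
    obtain ⟨x, hx⟩ := hf2 y
    refine ⟨x, ?_⟩
    have h1 : ((netGraph G k N).dist (f x) y : ℝ) < 2 := by linarith
    have h2 : (netGraph G k N).dist (f x) y < 2 := by exact_mod_cast h1
    omega
  choose g hg using hnear
  rw [nball_ncard_eq hG hf ht v (g ⟨v, hv⟩)]
  classical
  refine Set.ncard_le_ncard_of_injOn (fun x => if hx : x ∈ A then g ⟨x, hAN hx⟩ else v) ?_ ?_
    (nball_finite hG hf _ _)
  · intro x hx
    simp only [hx, dif_pos]
    show G.dist (g ⟨v, hv⟩) (g ⟨x, hAN hx⟩) ≤ 2 * J + 6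
    have h1 := hlev x hx
    have h2 := hg ⟨v, hv⟩
    have h3 := hg ⟨x, hAN hx⟩
    have h4 := hcon.dist_triangle (u := f (g ⟨v, hv⟩)) (v := ⟨v, hv⟩) (w := f (g ⟨x, hAN hx⟩))
    have h5 := hcon.dist_triangle (u := ⟨v, hv⟩) (v := ⟨x, hAN hx⟩) (w := f (g ⟨x, hAN hx⟩))
    rw [SimpleGraph.dist_comm (u := (⟨x, hAN hx⟩ : N))] at h5
    have h6 : (netGraph G k N).dist (f (g ⟨v, hv⟩)) (f (g ⟨x, hAN hx⟩)) ≤ J + 2 := by omega
    have h7 := (hf1 (g ⟨v, hv⟩) (g ⟨x, hAN hx⟩)).2
    have h8 : ((netGraph G k N).dist (f (g ⟨v, hv⟩)) (f (g ⟨x, hAN hx⟩)) : ℝ) ≤ J + 2 := by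
      exact_mod_cast h6
    have hJ0 : (1 : ℝ) ≤ J := by exact_mod_cast hJ
    have h9 : (G.dist (g ⟨v, hv⟩) (g ⟨x, hAN hx⟩) : ℝ) ≤ ((2 * J + 6 : ℕ) : ℝ) := by
      push_cast
      nlinarith
    exact_mod_cast h9
  · intro x hx y hy hxy
    simp only [hx, hy, dif_pos] at hxy
    by_contra hne
    have h1 := hA x hx y hy hne
    have h2 := dist_le_net hk hN hG ⟨x, hAN hx⟩ ⟨y, hAN hy⟩
    simp only at h2
    have h3 : 4 ≤ (netGraph G k N).dist ⟨x, hAN hx⟩ ⟨y, hAN hy⟩ := by
      by_contra hlt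
      have h4 : (netGraph G k N).dist ⟨x, hAN hx⟩ ⟨y, hAN hy⟩ ≤ 3 := by omega
      have h5 : 2 * k * (netGraph G k N).dist ⟨x, hAN hx⟩ ⟨y, hAN hy⟩ ≤ 2 * k * 3 :=
        Nat.mul_le_mul_left _ h4
      omega
    have h4 := hg ⟨x, hAN hx⟩
    have h5 := hg ⟨y, hAN hy⟩
    have h6 := hcon.dist_triangle (u := ⟨x, hAN hx⟩) (v := f (g ⟨x, hAN hx⟩)) (w := ⟨y, hAN hy⟩)
    rw [SimpleGraph.dist_comm (u := (⟨x, hAN hx⟩ : N)) (v := f (g ⟨x, hAN hx⟩))] at h6
    rw [hxy] at h4 h6
    omega

end Pool.Agent.Y488.SI
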